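import Mathlib

/-! The mobile-hider game on `[0,1]` and Alpern's strategy. -/

namespace Q93.AL

open Filter Topology Set
open scoped ENNReal

/-- The first `n` rounds when the searcher uses the pure strategy `s` (the next guess as a
function of the answers so far) and the hider uses the pure strategy `H` (the current secret
number as a function of the guesses seen so far): the list of answers and the list of guesses.
The answer to the guess `g` with secret `h` is `cmp g h`, i.e. `lt` if `g < h`, `gt` if `g > h`
and `eq` if `g = h`. -/
noncomputable def play (s : List Ordering → ℝ) (H : List ℝ → ℝ) : ℕ → List Ordering × List ℝ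
  | 0 => ([], [])
  | n + 1 => ((play s H n).1 ++ [cmp (s (play s H n).1) (H (play s H n).2)],
      (play s H n).2 ++ [s (play s H n).1])

/-- The guess in round `n` (rounds are numbered from `0`). -/
noncomputable def guess (s : List Ordering → ℝ) (H : List ℝ → ℝ) (n : ℕ) : ℝ :=
  s (play s H n).1

/-- The secret number in round `n`. -/
noncomputable def secret (s : List Ordering → ℝ) (H : List ℝ → ℝ) (n : ℕ) : ℝ :=
  H (play s H n).2

/-- The payoff `∑ |gₙ - h∞|` with `h∞ = lim hₙ`; it is `+∞` if the limit does not exist
(the infimum is over the at most one limit, and the infimum of the empty set is `+∞`). -/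
noncomputable def payoff (s : List Ordering → ℝ) (H : List ℝ → ℝ) : ℝ≥0∞ :=
  ⨅ (x : ℝ) (_ : Tendsto (secret s H) atTop (𝓝 x)), ∑' n, ENNReal.ofReal |guess s H n - x|

/-- Pure searcher strategies: all guesses lie in `[0,1]`. -/
def Searcher (s : List Ordering → ℝ) : Prop := ∀ l, s l ∈ Icc (0 : ℝ) 1

/-- Pure strategies of the mobile hider: all secret numbers lie in `[0,1]`, and after each round
the new secret number is consistent with all the answers given so far: for every earlier guess
`g`, made when the secret was `H l₁`, the present secret `H (l₁ ++ g :: l₂)` compares with `g`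
in the same way. -/
def Hider (H : List ℝ → ℝ) : Prop :=
  ∀ l : List ℝ, (∀ x ∈ l, x ∈ Icc (0 : ℝ) 1) → H l ∈ Icc (0 : ℝ) 1 ∧
    ∀ l₁ g l₂, l = l₁ ++ g :: l₂ → cmp g (H l) = cmp g (H l₁)

/-- Borel hider strategies (so that expected payoffs against mixed searcher strategies make
sense). -/
def BorelHider (H : List ℝ → ℝ) : Prop :=
  Hider H ∧ ∀ n, Measurable (fun v : Fin n → ℝ => H (List.ofFn v))

/-- The searcher strategy given by `lam : ℤ → ℝ`, continued from the counter `k` and the
interval `[a,b]`: guess `g = lam k * a + (1 - lam k) * b`; if `g < h` the counter increases and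
the interval becomes `[g,b]`, if `g > h` the counter decreases and the interval becomes
`[a,g]`, and if `g = h` all the further guesses are `g`. -/
noncomputable def alpern (lam : ℤ → ℝ) : List Ordering → ℤ → ℝ → ℝ → ℝ
  | [], k, a, b => lam k * a + (1 - lam k) * b
  | Ordering.lt :: l, k, a, b => alpern lam l (k + 1) (lam k * a + (1 - lam k) * b) b
  | Ordering.gt :: l, k, a, b => alpern lam l (k - 1) a (lam k * a + (1 - lam k) * b)
  | Ordering.eq :: _, k, a, b => lam k * a + (1 - lam k) * b

/-- The strategy given by `lam` from the start: counter `0`, interval `[0,1]`. -/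
noncomputable def strat (lam : ℤ → ℝ) : List Ordering → ℝ := fun l => alpern lam l 0 0 1

/-- `lam` is Alpern's sequence and `v` the value `v*`: all `lam k` lie in `(0,1)` and the payoff
against every fixed secret number outside the countable set of guesses is `v`. -/
def IsAlpern (lam : ℤ → ℝ) (v : ℝ) : Prop :=
  0 ≤ v ∧ (∀ k, lam k ∈ Ioo (0 : ℝ) 1) ∧
    ∀ h ∈ Icc (0 : ℝ) 1, (∀ l, strat lam l ≠ h) →
      payoff (strat lam) (fun _ => h) = ENNReal.ofReal v

end Q93.AL
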