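import Mathlib
import Pool.Agent.Q93.AL.Defs

namespace Q93.AL

open Filter Topology Set
open scoped ENNReal

variable {s : List Ordering → ℝ} {H : List ℝ → ℝ}

theorem play_succ' (s : List Ordering → ℝ) (H : List ℝ → ℝ) (n : ℕ) :
    play s H (n + 1) =
      (cmp (s []) (H []) :: (play (fun l => s (cmp (s []) (H []) :: l))
          (fun l => H (s [] :: l)) n).1,
        s [] :: (play (fun l => s (cmp (s []) (H []) :: l)) (fun l => H (s [] :: l)) n).2) := by
  induction n with
  | zero => simp [play]
  | succ n ih =>
    rw [play, ih]
    simp only [List.cons_append, play]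

theorem guess_zero : guess s H 0 = s [] := rfl
theorem secret_zero : secret s H 0 = H [] := rfl

theorem guess_succ (n : ℕ) : guess s H (n + 1) =
    guess (fun l => s (cmp (s []) (H []) :: l)) (fun l => H (s [] :: l)) n := by
  unfold guess
  rw [play_succ']

theorem secret_succ (n : ℕ) : secret s H (n + 1) =
    secret (fun l => s (cmp (s []) (H []) :: l)) (fun l => H (s [] :: l)) n := by
  unfold secret
  rw [play_succ']

/-- affine covariance -/
theorem play_affine {s s' : List Ordering → ℝ} {H H' : List ℝ → ℝ} {p q : ℝ} (hq : 0 < q)
    (hs : ∀ l, s' l = p + q * s l) (hH : ∀ l, H' (l.map (fun t => p + q * t)) = p + q * H l)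
    (n : ℕ) : play s' H' n = ((play s H n).1, (play s H n).2.map (fun t => p + q * t)) := by
  induction n with
  | zero => simp [play]
  | succ n ih =>
    rw [play, play, ih]
    simp only
    rw [hs, hH]
    have : cmp (p + q * s (play s H n).1) (p + q * H (play s H n).2) =
        cmp (s (play s H n).1) (H (play s H n).2) := by
      have hm : StrictMono (fun t : ℝ => p + q * t) := fun x y hxy => by
        have := mul_lt_mul_of_pos_left hxy hq
        simp only
        linarith
      exact hm.cmp_map_eq _ _
    rw [this]
    simp

theorem guess_affine {s s' : List Ordering → ℝ} {H H' : List ℝ → ℝ} {p q : ℝ} (hq : 0 < q)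
    (hs : ∀ l, s' l = p + q * s l) (hH : ∀ l, H' (l.map (fun t => p + q * t)) = p + q * H l)
    (n : ℕ) : guess s' H' n = p + q * guess s H n := by
  unfold guess
  rw [play_affine hq hs hH, hs]

theorem secret_affine {s s' : List Ordering → ℝ} {H H' : List ℝ → ℝ} {p q : ℝ} (hq : 0 < q)
    (hs : ∀ l, s' l = p + q * s l) (hH : ∀ l, H' (l.map (fun t => p + q * t)) = p + q * H l)
    (n : ℕ) : secret s' H' n = p + q * secret s H n := by
  unfold secret
  rw [play_affine hq hs hH, hH]

theorem length_play_one (n : ℕ) : (play s H n).1.length = n := by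
  induction n with
  | zero => rfl
  | succ n ih => rw [play]; simp [ih]

theorem length_play_two (n : ℕ) : (play s H n).2.length = n := by
  induction n with
  | zero => rfl
  | succ n ih => rw [play]; simp [ih]

theorem play_two_eq (n : ℕ) : (play s H n).2 = List.ofFn (fun i : Fin n => guess s H i) := by
  induction n with
  | zero => simp [play]
  | succ n ih =>
    rw [play, ih, List.ofFn_succ_last]
    simp [guess]

/-- payoff when the secret converges -/
theorem payoff_eq {x : ℝ} (hx : Tendsto (secret s H) atTop (𝓝 x)) :
    payoff s H = ∑' n, ENNReal.ofReal |guess s H n - x| := by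
  unfold payoff
  apply le_antisymm
  · exact iInf₂_le x hx
  · refine le_iInf₂ fun y hy => ?_
    rw [tendsto_nhds_unique hx hy]

end Q93.AL
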