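import Mathlib
import Pool.Agent.Q93.AL.Play

namespace Q93.AL

open Filter Topology Set
open scoped ENNReal

variable {lam : ℤ → ℝ}

theorem alpern_affine (l : List Ordering) : ∀ (k : ℤ) (a b : ℝ),
    alpern lam l k a b = a + (b - a) * alpern lam l k 0 1 := by
  induction l with
  | nil => intro k a b; simp only [alpern]; ring
  | cons o l ih =>
    intro k a b
    cases o with
    | lt =>
      simp only [alpern]
      rw [ih (k + 1) (lam k * a + (1 - lam k) * b) b, ih (k + 1) (lam k * 0 + (1 - lam k) * 1) 1]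
      ring
    | gt =>
      simp only [alpern]
      rw [ih (k - 1) a (lam k * a + (1 - lam k) * b), ih (k - 1) 0 (lam k * 0 + (1 - lam k) * 1)]
      ring
    | eq => simp only [alpern]; ring

theorem alpern_mem (hl : ∀ k, lam k ∈ Ioo (0 : ℝ) 1) (l : List Ordering) :
    ∀ (k : ℤ) (a b : ℝ), a < b → alpern lam l k a b ∈ Ioo a b := by
  have hg : ∀ (k : ℤ) (a b : ℝ), a < b → lam k * a + (1 - lam k) * b ∈ Ioo a b := by
    intro k a b hab
    have h1 := hl k
    constructor
    · nlinarith [h1.1, h1.2]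
    · nlinarith [h1.1, h1.2]
  induction l with
  | nil => intro k a b hab; exact hg k a b hab
  | cons o l ih =>
    intro k a b hab
    have h1 := hg k a b hab
    cases o with
    | lt =>
      have := ih (k + 1) (lam k * a + (1 - lam k) * b) b h1.2
      exact ⟨h1.1.trans this.1, this.2⟩
    | gt =>
      have := ih (k - 1) a (lam k * a + (1 - lam k) * b) h1.1
      exact ⟨this.1, this.2.trans h1.2⟩
    | eq => exact h1

/-- the equalizing property with counter `k` -/
def Eq' (lam : ℤ → ℝ) (k : ℤ) (w : ℝ) : Prop :=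
  ∀ t ∈ Ioo (0 : ℝ) 1, (∀ l, alpern lam l k 0 1 ≠ t) →
    HasSum (fun n => |guess (fun l => alpern lam l k 0 1) (fun _ => t) n - t|) (w - k * t)

theorem eq'_zero {v : ℝ} (h : IsAlpern lam v) : Eq' lam 0 v := by
  intro t ht hne
  have h1 := h.2.2 t ⟨ht.1.le, ht.2.le⟩ hne
  have hsec : Tendsto (secret (strat lam) (fun _ => t)) atTop (𝓝 t) := by
    have : secret (strat lam) (fun _ => t) = fun _ => t := rfl
    rw [this]
    exact tendsto_const_nhds
  rw [payoff_eq hsec] at h1
  have hne' : ∑' n, ENNReal.ofReal |guess (strat lam) (fun _ => t) n - t| ≠ ∞ := by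
    rw [h1]; exact ENNReal.ofReal_ne_top
  have hsum := ENNReal.summable_toReal hne'
  have hval := ENNReal.tsum_toReal_eq
    (f := fun n => ENNReal.ofReal |guess (strat lam) (fun _ => t) n - t|)
    (fun _ => ENNReal.ofReal_ne_top)
  rw [h1, ENNReal.toReal_ofReal h.1] at hval
  simp only [ENNReal.toReal_ofReal (abs_nonneg _)] at hsum hval
  have := hsum.hasSum
  rw [← hval] at this
  have e0 : v - ((0 : ℤ) : ℝ) * t = v := by push_cast; ring
  rw [e0]
  exact this

theorem eq'_up (hl : ∀ k, lam k ∈ Ioo (0 : ℝ) 1) {k : ℤ} {w : ℝ} (h : Eq' lam k w) :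
    Eq' lam (k + 1) ((w - k * (1 - lam k)) / lam k) := by
  intro t ht hne
  have hk := hl k
  set g := 1 - lam k with hg
  have hg' : lam k = 1 - g := by rw [hg]; ring
  have hg0 : 0 < g := by rw [hg]; linarith [hk.2]
  have hg1 : g < 1 := by rw [hg]; linarith [hk.1]
  set x := g + (1 - g) * t with hx
  have hgx : g < x := by
    have : 0 < (1 - g) * t := mul_pos (by linarith) ht.1
    linarith
  have hx1 : x < 1 := by
    have : (1 - g) * t < (1 - g) * 1 := mul_lt_mul_of_pos_left ht.2 (by linarith)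
    linarith
  have hroot : lam k * 0 + (1 - lam k) * 1 = g := by rw [hg]; ring
  have hxne : ∀ l, alpern lam l k 0 1 ≠ x := by
    intro l
    rcases l with _ | ⟨o, l⟩
    · simp only [alpern]
      rw [hroot]
      exact hgx.ne
    · cases o with
      | lt =>
        simp only [alpern]
        rw [hroot, alpern_affine]
        intro h2
        apply hne l
        have h3 : (1 - g) * alpern lam l (k + 1) 0 1 = (1 - g) * t := by linarith
        exact mul_left_cancel₀ (by linarith : (1 - g) ≠ 0) h3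
      | gt =>
        simp only [alpern]
        rw [hroot]
        have := (alpern_mem hl l (k - 1) 0 g hg0).2
        linarith [this]
      | eq =>
        simp only [alpern]
        rw [hroot]
        exact hgx.ne
  have h2 := h x ⟨by linarith, hx1⟩ hxne
  rw [← hasSum_nat_add_iff' 1] at h2
  simp only [Finset.sum_range_one, guess_zero] at h2
  have hcmp : cmp (alpern lam [] k 0 1) x = Ordering.lt := by
    rw [cmp_eq_lt_iff]
    simp only [alpern]
    rw [hroot]
    exact hgx
  have h3 : ∀ n, guess (fun l => alpern lam l k 0 1) (fun _ => x) (n + 1) =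
      g + (1 - g) * guess (fun l => alpern lam l (k + 1) 0 1) (fun _ => t) n := by
    intro n
    rw [guess_succ, hcmp]
    refine guess_affine (by linarith) (fun l => ?_) (fun l => rfl) n
    simp only [alpern]
    rw [hroot, alpern_affine]
  have h4 : ∀ n, |guess (fun l => alpern lam l k 0 1) (fun _ => x) (n + 1) - x| =
      (1 - g) * |guess (fun l => alpern lam l (k + 1) 0 1) (fun _ => t) n - t| := by
    intro n
    rw [h3, ← abs_of_pos (by linarith : 0 < 1 - g), ← abs_mul,
      abs_of_pos (by linarith : 0 < 1 - g)]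
    congr 1
    rw [hx]
    ring
  simp only [h4] at h2
  have h5 := h2.mul_left (1 - g)⁻¹
  have e1 : |alpern lam [] k 0 1 - x| = x - g := by
    simp only [alpern]
    rw [hroot, abs_sub_comm, abs_of_pos (by linarith)]
  rw [e1] at h5
  have h6 : (1 - g) ≠ 0 := by linarith
  have e2 : (fun i => (1 - g)⁻¹ *
      ((1 - g) * |guess (fun l => alpern lam l (k + 1) 0 1) (fun _ => t) i - t|)) =
      fun n => |guess (fun l => alpern lam l (k + 1) 0 1) (fun _ => t) n - t| := by
    funext n
    rw [← mul_assoc, inv_mul_cancel₀ h6, one_mul]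
  have e3 : (1 - g)⁻¹ * (w - k * x - (x - g)) = (w - k * g) / lam k - ((k + 1 : ℤ) : ℝ) * t := by
    rw [hg', hx]
    push_cast
    field_simp
    ring
  rw [e2, e3] at h5
  exact h5

theorem eq'_down (hl : ∀ k, lam k ∈ Ioo (0 : ℝ) 1) {k : ℤ} {w : ℝ} (h : Eq' lam k w) :
    Eq' lam (k - 1) (w / (1 - lam k) - 1) := by
  intro t ht hne
  have hk := hl k
  set g := 1 - lam k with hg
  have hg0 : 0 < g := by rw [hg]; linarith [hk.2]
  have hg1 : g < 1 := by rw [hg]; linarith [hk.1]
  set x := 0 + g * t with hx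
  have hx0 : 0 < x := by
    have : 0 < g * t := mul_pos hg0 ht.1
    linarith
  have hxg : x < g := by
    have : g * t < g * 1 := mul_lt_mul_of_pos_left ht.2 hg0
    linarith
  have hroot : lam k * 0 + (1 - lam k) * 1 = g := by rw [hg]; ring
  have haff : ∀ l, alpern lam l (k - 1) 0 g = 0 + g * alpern lam l (k - 1) 0 1 := by
    intro l
    rw [alpern_affine l (k - 1) 0 g]
    ring
  have hxne : ∀ l, alpern lam l k 0 1 ≠ x := by
    intro l
    rcases l with _ | ⟨o, l⟩
    · simp only [alpern]
      rw [hroot]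
      exact hxg.ne'
    · cases o with
      | gt =>
        simp only [alpern]
        rw [hroot, haff]
        intro h2
        apply hne l
        have h3 : g * alpern lam l (k - 1) 0 1 = g * t := by linarith
        exact mul_left_cancel₀ hg0.ne' h3
      | lt =>
        simp only [alpern]
        rw [hroot]
        have := (alpern_mem hl l (k + 1) g 1 hg1).1
        linarith [this]
      | eq =>
        simp only [alpern]
        rw [hroot]
        exact hxg.ne'
  have h2 := h x ⟨hx0, by linarith⟩ hxne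
  rw [← hasSum_nat_add_iff' 1] at h2
  simp only [Finset.sum_range_one, guess_zero] at h2
  have hcmp : cmp (alpern lam [] k 0 1) x = Ordering.gt := by
    rw [cmp_eq_gt_iff]
    simp only [alpern]
    rw [hroot]
    exact hxg
  have h3 : ∀ n, guess (fun l => alpern lam l k 0 1) (fun _ => x) (n + 1) =
      0 + g * guess (fun l => alpern lam l (k - 1) 0 1) (fun _ => t) n := by
    intro n
    rw [guess_succ, hcmp]
    refine guess_affine hg0 (fun l => ?_) (fun l => rfl) n
    simp only [alpern]
    rw [hroot, haff]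
  have h4 : ∀ n, |guess (fun l => alpern lam l k 0 1) (fun _ => x) (n + 1) - x| =
      g * |guess (fun l => alpern lam l (k - 1) 0 1) (fun _ => t) n - t| := by
    intro n
    rw [h3, ← abs_of_pos hg0, ← abs_mul, abs_of_pos hg0]
    congr 1
    rw [hx]
    ring
  simp only [h4] at h2
  have h5 := h2.mul_left g⁻¹
  have e1 : |alpern lam [] k 0 1 - x| = g - x := by
    simp only [alpern]
    rw [hroot, abs_of_pos (by linarith)]
  rw [e1] at h5
  have e2 : (fun i => g⁻¹ *
      (g * |guess (fun l => alpern lam l (k - 1) 0 1) (fun _ => t) i - t|)) =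
      fun n => |guess (fun l => alpern lam l (k - 1) 0 1) (fun _ => t) n - t| := by
    funext n
    rw [← mul_assoc, inv_mul_cancel₀ hg0.ne', one_mul]
  have e3 : g⁻¹ * (w - k * x - (g - x)) = w / g - 1 - ((k - 1 : ℤ) : ℝ) * t := by
    rw [hx]
    push_cast
    field_simp
    ring
  rw [e2, e3] at h5
  exact h5

theorem exists_avoid (k : ℤ) {a b : ℝ} (hab : a < b) :
    ∃ t ∈ Ioo a b, ∀ l, alpern lam l k 0 1 ≠ t := by
  have hc : (range (fun l => alpern lam l k 0 1)).Countable := countable_range _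
  obtain ⟨t, ht, ht'⟩ := (hc.dense_compl ℝ).exists_mem_open isOpen_Ioo (nonempty_Ioo.2 hab)
  exact ⟨t, ht', fun l hl => ht ⟨l, hl⟩⟩

theorem eq'_unique {k : ℤ} {w w' : ℝ} (h : Eq' lam k w) (h' : Eq' lam k w') : w = w' := by
  obtain ⟨t, ht, hne⟩ := exists_avoid (lam := lam) k (by norm_num : (0:ℝ) < 1)
  have := (h t ht hne).unique (h' t ht hne)
  linarith

theorem eq'_ge {k : ℤ} {w : ℝ} (h : Eq' lam k w) : max (k : ℝ) 0 ≤ w := by
  have key : ∀ t ∈ Ioo (0:ℝ) 1, (∀ l, alpern lam l k 0 1 ≠ t) → k * t ≤ w := by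
    intro t ht hne
    have := (h t ht hne).nonneg (fun n => abs_nonneg _)
    linarith
  have key2 : ∀ t ∈ Icc (0:ℝ) 1, k * t ≤ w := by
    intro t ht
    by_contra hcon
    push Not at hcon
    -- choose a nearby point
    have hcont : Continuous fun t : ℝ => (k : ℝ) * t := continuous_const.mul continuous_id
    have hopen : IsOpen {t : ℝ | w < k * t} := isOpen_lt continuous_const hcont
    obtain ⟨ε, hε, hb⟩ := Metric.isOpen_iff.1 hopen t hcon
    obtain ⟨u, hu, hne⟩ := exists_avoid (lam := lam) k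
      (show max 0 (t - ε) < min 1 (t + ε) by
        rw [max_lt_iff, lt_min_iff, lt_min_iff]
        exact ⟨⟨one_pos, by linarith [ht.1]⟩, by linarith [ht.2], by linarith⟩)
    have hu1 := max_lt_iff.1 hu.1
    have hu2 := lt_min_iff.1 hu.2
    have h3 : u ∈ Metric.ball t ε := by
      rw [Metric.mem_ball, Real.dist_eq, abs_lt]
      constructor <;> linarith
    have h4 : w < k * u := hb h3
    have h5 := key u ⟨hu1.1, hu2.1⟩ hne
    linarith
  have h0 := key2 0 ⟨le_rfl, zero_le_one⟩
  have h1 := key2 1 ⟨zero_le_one, le_rfl⟩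
  rw [mul_zero] at h0
  rw [mul_one] at h1
  exact max_le h1 h0

/-- The values `w k` of the states. -/
structure Vals (lam : ℤ → ℝ) (v : ℝ) (w : ℤ → ℝ) : Prop where
  zero : w 0 = v
  lam_mem : ∀ k, lam k ∈ Ioo (0 : ℝ) 1
  ge : ∀ k : ℤ, max (k : ℝ) 0 ≤ w k
  up : ∀ k : ℤ, w k = k * (1 - lam k) + lam k * w (k + 1)
  down : ∀ k : ℤ, w k = (1 - lam k) * (1 + w (k - 1))

theorem exists_vals {v : ℝ} (h : IsAlpern lam v) : ∃ w, Vals lam v w := by
  have hl := h.2.1
  have hex : ∀ k : ℤ, ∃ w, Eq' lam k w := by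
    intro k
    induction k using Int.induction_on with
    | zero => exact ⟨v, eq'_zero h⟩
    | succ k ih =>
      obtain ⟨w, hw⟩ := ih
      exact ⟨_, eq'_up hl hw⟩
    | pred k ih =>
      obtain ⟨w, hw⟩ := ih
      exact ⟨_, eq'_down hl hw⟩
  choose w hw using hex
  refine ⟨w, eq'_unique (hw 0) (eq'_zero h), hl, fun k => eq'_ge (hw k), fun k => ?_, fun k => ?_⟩
  · have h1 := eq'_unique (hw (k + 1)) (eq'_up hl (hw k))
    have h2 := (hl k).1
    rw [h1]
    field_simp
    ring
  · have h1 := eq'_unique (hw (k - 1)) (eq'_down hl (hw k))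
    have h2 : 0 < 1 - lam k := by linarith [(hl k).2]
    rw [h1]
    field_simp
    ring

theorem Vals.nonneg {v : ℝ} {w : ℤ → ℝ} (h : Vals lam v w) (k : ℤ) : 0 ≤ w k :=
  (le_max_right _ _).trans (h.ge k)

theorem Vals.ge' {v : ℝ} {w : ℤ → ℝ} (h : Vals lam v w) (k : ℤ) : (k : ℝ) ≤ w k :=
  (le_max_left _ _).trans (h.ge k)

theorem Vals.le {v : ℝ} {w : ℤ → ℝ} (h : Vals lam v w) (k : ℤ) : w k ≤ v + max (k : ℝ) 0 := by
  induction k using Int.induction_on with
  | zero => simp [h.zero]
  | succ k ih =>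
    have h1 := h.down ((k : ℤ) + 1)
    rw [add_sub_cancel_right] at h1
    have h2 := h.lam_mem ((k : ℤ) + 1)
    have h3 := h.nonneg k
    have h4 : w ((k : ℤ) + 1) ≤ 1 + w k := by
      rw [h1]
      nlinarith [h2.1, h2.2]
    have h5 : max ((((k : ℤ) + 1 : ℤ)) : ℝ) 0 = (k : ℝ) + 1 := by
      push_cast
      exact max_eq_left (by positivity)
    have h6 : max (((k : ℤ)) : ℝ) 0 = (k : ℝ) := by
      push_cast
      exact max_eq_left (by positivity)
    rw [h5]
    rw [h6] at ih
    linarith
  | pred k ih =>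
    have h1 := h.up (-(k : ℤ) - 1)
    rw [sub_add_cancel] at h1
    have h2 := h.lam_mem (-(k : ℤ) - 1)
    have h3 := h.nonneg (-(k : ℤ))
    have h6 : max ((-(k : ℤ) : ℤ) : ℝ) 0 = 0 := by
      push_cast
      exact max_eq_right (by simp)
    have h5 : max ((-(k : ℤ) - 1 : ℤ) : ℝ) 0 = 0 := by
      push_cast
      apply max_eq_right
      have : (0:ℝ) ≤ k := by positivity
      linarith
    rw [h6] at ih
    rw [h5]
    have h7 : ((-(k : ℤ) - 1 : ℤ) : ℝ) * (1 - lam (-(k : ℤ) - 1)) ≤ 0 := by
      push_cast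
      apply mul_nonpos_of_nonpos_of_nonneg
      · have : (0:ℝ) ≤ k := by positivity
        linarith
      · linarith [h2.2]
    have h8 : lam (-(k : ℤ) - 1) * w (-(k : ℤ)) ≤ w (-(k : ℤ)) := by
      nlinarith [h2.1, h2.2]
    rw [h1]
    linarith

end Q93.AL
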