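import Mathlib
import Pool.Agent.Q93.AL.Alp

namespace Q93.AL

open Filter Topology Set
open scoped ENNReal

/-- first secret `x`, then continue with rescaled strategies -/
noncomputable def comb (x : ℝ) (Hu Hd : List ℝ → ℝ) : List ℝ → ℝ
  | [] => x
  | g :: l => open Classical in
    if g < x then
      max g 0 + (1 - max g 0) * Hu (l.map (fun t => (t - max g 0) / (1 - max g 0)))
    else if x < g then min g 1 * Hd (l.map (fun t => t / min g 1)) else x

structure Nice (N : ℕ) (H : List ℝ → ℝ) : Prop where
  mem : ∀ l, H l ∈ Ioo (0 : ℝ) 1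
  cons : ∀ l₁ g l₂, cmp g (H (l₁ ++ g :: l₂)) = cmp g (H l₁)
  take : ∀ l, H l = H (l.take N)
  meas : ∀ n, Measurable (fun v : Fin n → ℝ => H (List.ofFn v))

theorem nice_const (N : ℕ) {x : ℝ} (hx : x ∈ Ioo (0 : ℝ) 1) : Nice N (fun _ => x) :=
  ⟨fun _ => hx, fun _ _ _ => rfl, fun _ => rfl, fun _ => measurable_const⟩

theorem nice_comb {N : ℕ} {x : ℝ} (hx : x ∈ Ioo (0 : ℝ) 1) {Hu Hd : List ℝ → ℝ}
    (hu : Nice N Hu) (hd : Nice N Hd) : Nice (N + 1) (comb x Hu Hd) := by
  classical
  refine ⟨fun l => ?_, fun l₁ g l₂ => ?_, fun l => ?_, fun n => ?_⟩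
  · rcases l with _ | ⟨g, l⟩
    · exact hx
    · simp only [comb]
      split_ifs with h1 h2
      · have h3 := hu.mem (l.map (fun t => (t - max g 0) / (1 - max g 0)))
        have h4 : max g 0 < 1 := max_lt (h1.trans hx.2) one_pos
        have h5 : 0 ≤ max g 0 := le_max_right _ _
        constructor
        · have := mul_pos (by linarith : 0 < 1 - max g 0) h3.1
          linarith
        · have := mul_lt_mul_of_pos_left h3.2 (by linarith : 0 < 1 - max g 0)
          linarith
      · have h3 := hd.mem (l.map (fun t => t / min g 1))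
        have h4 : 0 < min g 1 := lt_min (hx.1.trans h2) one_pos
        have h5 : min g 1 ≤ 1 := min_le_right _ _
        constructor
        · exact mul_pos h4 h3.1
        · have := mul_lt_mul_of_pos_left h3.2 h4
          linarith
      · exact hx
  · rcases l₁ with _ | ⟨g₀, l₁⟩
    · simp only [List.nil_append, comb]
      split_ifs with h1 h2
      · have h3 := hu.mem (l₂.map (fun t => (t - max g 0) / (1 - max g 0)))
        have h4 : max g 0 < 1 := max_lt (h1.trans hx.2) one_pos
        have h5 : g ≤ max g 0 := le_max_left _ _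
        rw [(cmp_eq_lt_iff g x).2 h1, cmp_eq_lt_iff]
        have := mul_pos (by linarith : 0 < 1 - max g 0) h3.1
        linarith
      · have h3 := hd.mem (l₂.map (fun t => t / min g 1))
        have h4 : 0 < min g 1 := lt_min (hx.1.trans h2) one_pos
        have h5 : min g 1 ≤ g := min_le_left _ _
        rw [(cmp_eq_gt_iff g x).2 h2, cmp_eq_gt_iff]
        have := mul_lt_mul_of_pos_left h3.2 h4
        linarith
      · rfl
    · simp only [List.cons_append, comb]
      split_ifs with h1 h2
      · have h4 : max g₀ 0 < 1 := max_lt (h1.trans hx.2) one_pos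
        have hq : 0 < 1 - max g₀ 0 := by linarith
        set r : ℝ → ℝ := fun t => (t - max g₀ 0) / (1 - max g₀ 0) with hr
        have hm : StrictMono (fun t : ℝ => max g₀ 0 + (1 - max g₀ 0) * t) := fun y z hyz => by
          have := mul_lt_mul_of_pos_left hyz hq
          simp only
          linarith
        have hrg : max g₀ 0 + (1 - max g₀ 0) * r g = g := by
          simp only [hr]
          field_simp
          ring
        rw [List.map_append, List.map_cons]
        have h6 := hu.cons (l₁.map r) (r g) (l₂.map r)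
        have h7 := hm.cmp_map_eq (r g) (Hu (l₁.map r ++ r g :: l₂.map r))
        have h8 := hm.cmp_map_eq (r g) (Hu (l₁.map r))
        simp only [hrg] at h7 h8
        rw [h7, h8, h6]
      · have h4 : 0 < min g₀ 1 := lt_min (hx.1.trans h2) one_pos
        set r : ℝ → ℝ := fun t => t / min g₀ 1 with hr
        have hm : StrictMono (fun t : ℝ => min g₀ 1 * t) := fun y z hyz =>
          mul_lt_mul_of_pos_left hyz h4
        have hrg : min g₀ 1 * r g = g := by
          simp only [hr]
          field_simp
        rw [List.map_append, List.map_cons]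
        have h6 := hd.cons (l₁.map r) (r g) (l₂.map r)
        have h7 := hm.cmp_map_eq (r g) (Hd (l₁.map r ++ r g :: l₂.map r))
        have h8 := hm.cmp_map_eq (r g) (Hd (l₁.map r))
        simp only [hrg] at h7 h8
        rw [h7, h8, h6]
      · rfl
  · rcases l with _ | ⟨g, l⟩
    · rfl
    · simp only [List.take_succ_cons, comb]
      rw [hu.take (l.map _), hd.take (l.map _), ← List.map_take, ← List.map_take]
  · rcases n with _ | n
    · have : (fun v : Fin 0 → ℝ => comb x Hu Hd (List.ofFn v)) = fun _ => x := by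
        funext v
        simp [comb]
      rw [this]
      exact measurable_const
    · have : (fun v : Fin (n + 1) → ℝ => comb x Hu Hd (List.ofFn v)) = fun v =>
          if v 0 < x then
            max (v 0) 0 + (1 - max (v 0) 0) *
              Hu (List.ofFn (fun i : Fin n => (v i.succ - max (v 0) 0) / (1 - max (v 0) 0)))
          else if x < v 0 then
            min (v 0) 1 * Hd (List.ofFn (fun i : Fin n => v i.succ / min (v 0) 1)) else x := by
        funext v
        rw [List.ofFn_succ]
        simp only [comb, List.map_ofFn]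
        rfl
      rw [this]
      have m0 : Measurable (fun v : Fin (n + 1) → ℝ => v 0) := measurable_pi_apply 0
      have mi : ∀ i : Fin n, Measurable (fun v : Fin (n + 1) → ℝ => v i.succ) :=
        fun i => measurable_pi_apply _
      have m1 : Measurable (fun v : Fin (n + 1) → ℝ => max (v 0) 0) := m0.max measurable_const
      have m2 : Measurable (fun v : Fin (n + 1) → ℝ => min (v 0) 1) := m0.min measurable_const
      have mu := (hu.meas n).comp (measurable_pi_lambda
        (fun v : Fin (n + 1) → ℝ => fun i : Fin n =>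
          (v i.succ - max (v 0) 0) / (1 - max (v 0) 0))
        (fun i => ((mi i).sub m1).div (measurable_const.sub m1)))
      have md := (hd.meas n).comp (measurable_pi_lambda
        (fun v : Fin (n + 1) → ℝ => fun i : Fin n => v i.succ / min (v 0) 1)
        (fun i => (mi i).div m2))
      refine Measurable.ite (measurableSet_lt m0 measurable_const)
        (m1.add ((measurable_const.sub m1).mul mu)) ?_
      exact Measurable.ite (measurableSet_lt measurable_const m0) (m2.mul md) measurable_const

theorem Nice.hider {N : ℕ} {H : List ℝ → ℝ} (h : Nice N H) : BorelHider H := by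
  refine ⟨fun l _ => ⟨Ioo_subset_Icc_self (h.mem l), ?_⟩, h.meas⟩
  intro l₁ g l₂ hl
  rw [hl]
  exact h.cons l₁ g l₂

/-- functional of the finite game -/
noncomputable def F (s : List Ordering → ℝ) (H : List ℝ → ℝ) (k : ℝ) (N : ℕ) : ℝ :=
  k * secret s H N + ∑ n ∈ Finset.range N, |guess s H n - secret s H N|

theorem F_comb_lt {s : List Ordering → ℝ} {x : ℝ} (hx : x ∈ Ioo (0 : ℝ) 1)
    {Hu Hd : List ℝ → ℝ} {N : ℕ} (hu : Nice N Hu) (k : ℝ) (hg : s [] < x) :
    k * max (s []) 0 + (1 - max (s []) 0) *
      F (fun l => (s (Ordering.lt :: l) - max (s []) 0) / (1 - max (s []) 0)) Hu (k + 1) N ≤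
      F s (comb x Hu Hd) k (N + 1) := by
  set g := s [] with hgdef
  set p := max g 0 with hp
  have hp1 : p < 1 := max_lt (hg.trans hx.2) one_pos
  have hq : 0 < 1 - p := by linarith
  set s'' : List Ordering → ℝ := fun l => (s (Ordering.lt :: l) - p) / (1 - p) with hs''
  have hcmp : cmp (s []) (comb x Hu Hd []) = Ordering.lt := (cmp_eq_lt_iff _ _).2 hg
  have hsaff : ∀ l, (fun l => s (Ordering.lt :: l)) l = p + (1 - p) * s'' l := by
    intro l
    simp only [hs'']
    field_simp
    ring
  have hHaff : ∀ l, (fun l => comb x Hu Hd (g :: l)) (l.map (fun t => p + (1 - p) * t)) =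
      p + (1 - p) * Hu l := by
    intro l
    simp only [comb]
    rw [if_pos hg, List.map_map]
    congr 3
    have : ((fun t => (t - max g 0) / (1 - max g 0)) ∘ fun t => p + (1 - p) * t) = id := by
      funext t
      simp only [Function.comp_apply, ← hp, id_eq]
      field_simp
      ring
    rw [this, List.map_id]
  have hG : ∀ i, guess s (comb x Hu Hd) (i + 1) = p + (1 - p) * guess s'' Hu i := by
    intro i
    rw [guess_succ, hcmp]
    exact guess_affine hq hsaff hHaff i
  have hS : ∀ i, secret s (comb x Hu Hd) (i + 1) = p + (1 - p) * secret s'' Hu i := by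
    intro i
    rw [secret_succ, hcmp]
    exact secret_affine hq hsaff hHaff i
  unfold F
  rw [Finset.sum_range_succ', hS, guess_zero]
  simp only [hG]
  set h' := secret s'' Hu N with hh'
  have hh0 : 0 < h' := (hu.mem _).1
  have e1 : ∀ i, |p + (1 - p) * guess s'' Hu i - (p + (1 - p) * h')| =
      (1 - p) * |guess s'' Hu i - h'| := by
    intro i
    rw [show p + (1 - p) * guess s'' Hu i - (p + (1 - p) * h') =
      (1 - p) * (guess s'' Hu i - h') by ring, abs_mul, abs_of_pos hq]
  simp only [e1]
  rw [← Finset.mul_sum]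
  have e2 : (1 - p) * h' ≤ |s [] - (p + (1 - p) * h')| := by
    have : s [] ≤ p := le_max_left _ _
    have h3 : 0 < (1 - p) * h' := mul_pos hq hh0
    rw [abs_sub_comm, abs_of_pos (by linarith)]
    linarith
  linarith

theorem F_comb_gt {s : List Ordering → ℝ} {x : ℝ} (hx : x ∈ Ioo (0 : ℝ) 1)
    {Hu Hd : List ℝ → ℝ} {N : ℕ} (hd : Nice N Hd) (k : ℝ) (hg : x < s []) :
    min (s []) 1 * (1 + F (fun l => s (Ordering.gt :: l) / min (s []) 1) Hd (k - 1) N) ≤
      F s (comb x Hu Hd) k (N + 1) := by
  set g := s [] with hgdef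
  set p := min g 1 with hp
  have hp0 : 0 < p := lt_min (hx.1.trans hg) one_pos
  set s'' : List Ordering → ℝ := fun l => s (Ordering.gt :: l) / p with hs''
  have hcmp : cmp (s []) (comb x Hu Hd []) = Ordering.gt := (cmp_eq_gt_iff _ _).2 hg
  have hsaff : ∀ l, (fun l => s (Ordering.gt :: l)) l = 0 + p * s'' l := by
    intro l
    simp only [hs'']
    field_simp
    ring
  have hHaff : ∀ l, (fun l => comb x Hu Hd (g :: l)) (l.map (fun t => 0 + p * t)) =
      0 + p * Hd l := by
    intro l
    simp only [comb]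
    rw [if_neg (not_lt.2 hg.le), if_pos hg, List.map_map, zero_add]
    congr 2
    have : ((fun t => t / min g 1) ∘ fun t => 0 + p * t) = id := by
      funext t
      simp only [Function.comp_apply, ← hp, id_eq]
      field_simp
      ring
    rw [this, List.map_id]
  have hG : ∀ i, guess s (comb x Hu Hd) (i + 1) = 0 + p * guess s'' Hd i := by
    intro i
    rw [guess_succ, hcmp]
    exact guess_affine hp0 hsaff hHaff i
  have hS : ∀ i, secret s (comb x Hu Hd) (i + 1) = 0 + p * secret s'' Hd i := by
    intro i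
    rw [secret_succ, hcmp]
    exact secret_affine hp0 hsaff hHaff i
  unfold F
  rw [Finset.sum_range_succ', hS, guess_zero]
  simp only [hG]
  set h' := secret s'' Hd N with hh'
  have hh1 : h' < 1 := (hd.mem _).2
  have e1 : ∀ i, |0 + p * guess s'' Hd i - (0 + p * h')| = p * |guess s'' Hd i - h'| := by
    intro i
    rw [show 0 + p * guess s'' Hd i - (0 + p * h') =
      p * (guess s'' Hd i - h') by ring, abs_mul, abs_of_pos hp0]
  simp only [e1]
  rw [← Finset.mul_sum]
  have e2 : p - p * h' ≤ |s [] - (0 + p * h')| := by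
    have h2 : p ≤ s [] := min_le_left _ _
    have h3 : p * h' < p * 1 := mul_lt_mul_of_pos_left hh1 hp0
    rw [abs_of_pos (by linarith)]
    linarith
  linarith

theorem F_comb_eq {s : List Ordering → ℝ} {x : ℝ} {Hu Hd : List ℝ → ℝ} {N : ℕ} (k : ℝ)
    (hg : s [] = x) : k * x ≤ F s (comb x Hu Hd) k (N + 1) := by
  have hS : secret s (comb x Hu Hd) (N + 1) = x := by
    rw [secret_succ]
    unfold secret
    simp only [comb]
    rw [if_neg (by rw [hg]; exact lt_irrefl x), if_neg (by rw [hg]; exact lt_irrefl x)]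
  unfold F
  rw [hS]
  have : 0 ≤ ∑ n ∈ Finset.range (N + 1), |guess s (comb x Hu Hd) n - x| :=
    Finset.sum_nonneg fun _ _ => abs_nonneg _
  linarith

/-- finite mixed hider strategies guaranteeing almost `v` in the game with functional `F` -/
def Mix (N : ℕ) (k v : ℝ) : Prop :=
  ∀ ε > 0, ∃ (ι : Type) (_ : Fintype ι) (p : ι → ℝ) (H : ι → List ℝ → ℝ),
    (∀ i, 0 ≤ p i) ∧ ∑ i, p i = 1 ∧ (∀ i, Nice N (H i)) ∧
      ∀ s : List Ordering → ℝ, v - ε ≤ ∑ i, p i * F s (H i) k N

theorem Mix.mono {N : ℕ} {k v v' : ℝ} (h : Mix N k v) (hv : v' ≤ v) : Mix N k v' := by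
  intro ε hε
  obtain ⟨ι, hι, p, H, h1, h2, h3, h4⟩ := h ε hε
  exact ⟨ι, hι, p, H, h1, h2, h3, fun s => by linarith [h4 s]⟩

theorem F_const (s : List Ordering → ℝ) (x k : ℝ) (N : ℕ) : k * x ≤ F s (fun _ => x) k N := by
  unfold F
  have hS : secret s (fun _ => x) N = x := rfl
  rw [hS]
  have : 0 ≤ ∑ n ∈ Finset.range N, |guess s (fun _ => x) n - x| :=
    Finset.sum_nonneg fun _ _ => abs_nonneg _
  linarith

theorem mix_const (N : ℕ) (k : ℝ) : Mix N k (max k 0) := by
  intro ε hε
  obtain ⟨x, hx, hkx⟩ : ∃ x ∈ Ioo (0:ℝ) 1, max k 0 - ε ≤ k * x := by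
    rcases le_total 0 k with h | h
    · rw [max_eq_left h]
      refine ⟨1 - min (1 / 2) (ε / (k + 1)), ⟨?_, ?_⟩, ?_⟩
      · linarith [min_le_left (1 / 2 : ℝ) (ε / (k + 1))]
      · have : 0 < min (1 / 2 : ℝ) (ε / (k + 1)) := lt_min (by norm_num) (by positivity)
        linarith
      · have h1 : min (1 / 2 : ℝ) (ε / (k + 1)) ≤ ε / (k + 1) := min_le_right _ _
        have h2 : k * min (1 / 2 : ℝ) (ε / (k + 1)) ≤ k * (ε / (k + 1)) :=
          mul_le_mul_of_nonneg_left h1 h
        have h3 : k * (ε / (k + 1)) ≤ ε := by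
          rw [mul_div_assoc', div_le_iff₀ (by linarith)]
          nlinarith
        linarith
    · rw [max_eq_right h]
      refine ⟨min (1 / 2) (ε / (1 - k)), ⟨?_, ?_⟩, ?_⟩
      · exact lt_min (by norm_num) (div_pos hε (by linarith))
      · linarith [min_le_left (1 / 2 : ℝ) (ε / (1 - k))]
      · have h1 : min (1 / 2 : ℝ) (ε / (1 - k)) ≤ ε / (1 - k) := min_le_right _ _
        have h2 : k * (ε / (1 - k)) ≤ k * min (1 / 2 : ℝ) (ε / (1 - k)) :=
          mul_le_mul_of_nonpos_left h1 h
        have h3 : -ε ≤ k * (ε / (1 - k)) := by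
          rw [mul_div_assoc', le_div_iff₀ (by linarith)]
          nlinarith
        linarith
  refine ⟨Unit, inferInstance, fun _ => 1, fun _ _ => x, fun _ => zero_le_one, by simp,
    fun _ => nice_const N hx, fun s => ?_⟩
  simp only [Finset.univ_unique, Finset.sum_singleton, one_mul]
  exact hkx.trans (F_const s x k N)

end Q93.AL
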