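import Mathlib
import Pool.Agent.Q93.AL.Mix

namespace Q93.AL

open Filter Topology Set
open scoped ENNReal

/-- lower bound for the expected value with first secret `x` -/
noncomputable def val (k a b x g : ℝ) : ℝ :=
  open Classical in
  if g < x then k * max g 0 + (1 - max g 0) * a
  else if x < g then min g 1 * (1 + b) else k * x

theorem key_ineq {k wk wu wd vu vd u d δ g e : ℝ} (hu : 0 ≤ u) (hd : 0 ≤ d) (hud : u + d = 1)
    (h1 : wk = u * wu) (h2 : wk = u * k + d * (1 + wd)) (hvu : 0 ≤ vu) (hvd : 0 ≤ 1 + vd)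
    (hkvd : k ≤ 1 + vd) (hδ : 0 < δ) (hδ2 : δ < 1 / 2) (he : 0 ≤ e) :
    wk - max (u * (wu - vu)) (d * (wd - vd)) - e - δ * (|k| + (1 + vd) + vu) ≤
      u * val k (vu - e) (vd - e) (1 - δ) g + d * val k (vu - e) (vd - e) δ g := by
  -- main identity
  have main : ∀ p : ℝ, 0 ≤ p → p ≤ 1 →
      wk - max (u * (wu - vu)) (d * (wd - vd)) ≤
        u * (k * p + (1 - p) * vu) + d * (p * (1 + vd)) := by
    intro p hp0 hp1
    have e1 : u * (k * p + (1 - p) * vu) + d * (p * (1 + vd)) =
        wk - ((1 - p) * (u * (wu - vu)) + p * (d * (wd - vd))) := by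
      have : wk = (1 - p) * wk + p * wk := by ring
      rw [this]
      nth_rewrite 1 [h1]
      rw [h2]
      ring
    rw [e1]
    have h3 : (1 - p) * (u * (wu - vu)) ≤
        (1 - p) * max (u * (wu - vu)) (d * (wd - vd)) :=
      mul_le_mul_of_nonneg_left (le_max_left _ _) (by linarith)
    have h4 : p * (d * (wd - vd)) ≤ p * max (u * (wu - vu)) (d * (wd - vd)) :=
      mul_le_mul_of_nonneg_left (le_max_right _ _) hp0
    linarith
  have hk1 := neg_abs_le k
  have hk2 := le_abs_self k
  have hA : ∀ p : ℝ, 0 ≤ p → p ≤ 1 →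
      k * p + (1 - p) * vu - e ≤ k * p + (1 - p) * (vu - e) := by
    intro p hp0 hp1
    nlinarith
  have hB : ∀ p : ℝ, 0 ≤ p → p ≤ 1 → p * (1 + vd) - e ≤ p * (1 + (vd - e)) := by
    intro p hp0 hp1
    nlinarith
  have hC0 : 0 ≤ |k| + (1 + vd) + vu := by positivity
  unfold val
  rcases lt_trichotomy g δ with hg | hg | hg
  · -- both answers are `lt`
    rw [if_pos (by linarith), if_pos hg]
    set p := max g 0 with hp
    have hp0 : 0 ≤ p := le_max_right _ _
    have hpδ : p ≤ δ := max_le hg.le hδ.le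
    have h3 := main p hp0 (by linarith)
    have h4 := hA p hp0 (by linarith)
    have h5 : u * (k * p + (1 - p) * (vu - e)) + d * (k * p + (1 - p) * (vu - e)) =
        k * p + (1 - p) * (vu - e) := by rw [← add_mul, hud, one_mul]
    rw [h5]
    have h6 : p * (1 + vd) - (k * p + (1 - p) * vu) ≤ δ * (|k| + (1 + vd) + vu) := by
      have h7 : p * (1 + vd) ≤ δ * (1 + vd) := mul_le_mul_of_nonneg_right hpδ hvd
      have h8 : -(k * p) ≤ δ * |k| := by
        have : -(k * p) ≤ |k| * p := by nlinarith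
        nlinarith [abs_nonneg k]
      have h9 : 0 ≤ (1 - p) * vu := mul_nonneg (by linarith) hvu
      have h10 : 0 ≤ δ * vu := mul_nonneg hδ.le hvu
      linarith
    have h7 : u * (k * p + (1 - p) * vu) + d * (p * (1 + vd)) =
        (k * p + (1 - p) * vu) + d * (p * (1 + vd) - (k * p + (1 - p) * vu)) := by
      have : u = 1 - d := by linarith
      rw [this]; ring
    have h8 : d * (p * (1 + vd) - (k * p + (1 - p) * vu)) ≤
        d * (δ * (|k| + (1 + vd) + vu)) := mul_le_mul_of_nonneg_left h6 hd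
    have h9 : d * (δ * (|k| + (1 + vd) + vu)) ≤ 1 * (δ * (|k| + (1 + vd) + vu)) :=
      mul_le_mul_of_nonneg_right (by linarith) (by positivity)
    linarith
  · -- `g = δ`
    rw [if_pos (by linarith : g < 1 - δ), if_neg (by rw [hg]; exact lt_irrefl δ),
      if_neg (by rw [hg]; exact lt_irrefl δ)]
    have hmax : max g 0 = δ := by rw [hg]; exact max_eq_left hδ.le
    rw [hmax]
    have h3 := main δ hδ.le (by linarith)
    have h4 := hA δ hδ.le (by linarith)
    have h5 : u * (k * δ + (1 - δ) * vu) - e ≤ u * (k * δ + (1 - δ) * (vu - e)) := by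
      nlinarith
    have h6 : d * (δ * (1 + vd)) - δ * (|k| + (1 + vd) + vu) ≤ d * (k * δ) := by
      have h7 : d * (δ * (1 + vd) - k * δ) ≤ d * (δ * (|k| + (1 + vd) + vu)) := by
        apply mul_le_mul_of_nonneg_left _ hd
        nlinarith
      have h9 : d * (δ * (|k| + (1 + vd) + vu)) ≤ 1 * (δ * (|k| + (1 + vd) + vu)) :=
        mul_le_mul_of_nonneg_right (by linarith) (by positivity)
      linarith
    linarith
  · rcases lt_trichotomy g (1 - δ) with hg' | hg' | hg'
    · -- middle
      rw [if_pos hg', if_neg (not_lt.2 hg.le), if_pos hg]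
      have hmax : max g 0 = g := max_eq_left (by linarith)
      have hmin : min g 1 = g := min_eq_left (by linarith)
      rw [hmax, hmin]
      have h3 := main g (by linarith) (by linarith)
      have h4 := hA g (by linarith) (by linarith)
      have h5 := hB g (by linarith) (by linarith)
      have h6 : u * (k * g + (1 - g) * vu - e) ≤ u * (k * g + (1 - g) * (vu - e)) :=
        mul_le_mul_of_nonneg_left h4 hu
      have h7 : d * (g * (1 + vd) - e) ≤ d * (g * (1 + (vd - e))) :=
        mul_le_mul_of_nonneg_left h5 hd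
      have h8 : u * e + d * e = e := by rw [← add_mul, hud, one_mul]
      have h9 : 0 ≤ δ * (|k| + (1 + vd) + vu) := by positivity
      nlinarith
    · -- `g = 1 - δ`
      rw [if_neg (by rw [hg']; exact lt_irrefl _), if_neg (by rw [hg']; exact lt_irrefl _),
        if_neg (not_lt.2 hg.le), if_pos hg]
      have hmin : min g 1 = 1 - δ := by rw [hg']; exact min_eq_left (by linarith)
      rw [hmin]
      have h3 := main (1 - δ) (by linarith) (by linarith)
      have h5 := hB (1 - δ) (by linarith) (by linarith)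
      have h7 : d * ((1 - δ) * (1 + vd) - e) ≤ d * ((1 - δ) * (1 + (vd - e))) :=
        mul_le_mul_of_nonneg_left h5 hd
      have h8 : d * e ≤ 1 * e := mul_le_mul_of_nonneg_right (by linarith) he
      have h9 : u * (δ * vu) ≤ 1 * (δ * vu) :=
        mul_le_mul_of_nonneg_right (by linarith) (mul_nonneg hδ.le hvu)
      have h10 : 0 ≤ δ * |k| := by positivity
      have h11 : 0 ≤ δ * (1 + vd) := mul_nonneg hδ.le hvd
      nlinarith
    · -- both answers are `gt`
      rw [if_neg (not_lt.2 hg'.le), if_pos hg', if_neg (not_lt.2 hg.le), if_pos hg]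
      set p := min g 1 with hp
      have hp1 : p ≤ 1 := min_le_right _ _
      have hp0 : 1 - δ ≤ p := le_min hg'.le (by linarith)
      have h3 := main p (by linarith) hp1
      have h5 := hB p (by linarith) hp1
      have h6 : u * (p * (1 + (vd - e))) + d * (p * (1 + (vd - e))) = p * (1 + (vd - e)) := by
        rw [← add_mul, hud, one_mul]
      rw [h6]
      have h7 : u * (k * p + (1 - p) * vu) ≤ u * (p * (1 + vd) + δ * vu) := by
        apply mul_le_mul_of_nonneg_left _ hu
        have h8 : k * p ≤ (1 + vd) * p := mul_le_mul_of_nonneg_right hkvd (by linarith)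
        have h9 : (1 - p) * vu ≤ δ * vu := mul_le_mul_of_nonneg_right (by linarith) hvu
        linarith
      have h8 : u * (p * (1 + vd) + δ * vu) + d * (p * (1 + vd)) =
          p * (1 + vd) + u * (δ * vu) := by
        have : d = 1 - u := by linarith
        rw [this]; ring
      have h9 : u * (δ * vu) ≤ 1 * (δ * vu) :=
        mul_le_mul_of_nonneg_right (by linarith) (mul_nonneg hδ.le hvu)
      have h10 : 0 ≤ δ * |k| := by positivity
      have h11 : 0 ≤ δ * (1 + vd) := mul_nonneg hδ.le hvd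
      linarith

/-- expectation over the product of the continuation mixtures -/
theorem exp_ge {ιu ιd : Type} [Fintype ιu] [Fintype ιd] {pu : ιu → ℝ} {pd : ιd → ℝ}
    (hpu : ∀ i, 0 ≤ pu i) (hpd : ∀ j, 0 ≤ pd j) (hsu : ∑ i, pu i = 1) (hsd : ∑ j, pd j = 1)
    {Hu : ιu → List ℝ → ℝ} {Hd : ιd → List ℝ → ℝ} {N : ℕ} (hu : ∀ i, Nice N (Hu i))
    (hd : ∀ j, Nice N (Hd j)) {k a b : ℝ}
    (ha : ∀ s : List Ordering → ℝ, a ≤ ∑ i, pu i * F s (Hu i) (k + 1) N)
    (hb : ∀ s : List Ordering → ℝ, b ≤ ∑ j, pd j * F s (Hd j) (k - 1) N)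
    {x : ℝ} (hx : x ∈ Ioo (0 : ℝ) 1) (s : List Ordering → ℝ) :
    val k a b x (s []) ≤ ∑ i, ∑ j, (pu i * pd j) * F s (comb x (Hu i) (Hd j)) k (N + 1) := by
  unfold val
  split_ifs with h1 h2
  · have hp1 : max (s []) 0 < 1 := max_lt (h1.trans hx.2) one_pos
    set p := max (s []) 0 with hp
    set s'' : List Ordering → ℝ := fun l => (s (Ordering.lt :: l) - p) / (1 - p) with hs''
    calc k * p + (1 - p) * a ≤ k * p + (1 - p) * ∑ i, pu i * F s'' (Hu i) (k + 1) N := by
          have := mul_le_mul_of_nonneg_left (ha s'') (by linarith : 0 ≤ 1 - p)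
          linarith
      _ = ∑ i, ∑ j, (pu i * pd j) * (k * p + (1 - p) * F s'' (Hu i) (k + 1) N) := by
          have : ∀ i, ∑ j, (pu i * pd j) * (k * p + (1 - p) * F s'' (Hu i) (k + 1) N) =
              pu i * (k * p) + (1 - p) * (pu i * F s'' (Hu i) (k + 1) N) := by
            intro i
            rw [← Finset.sum_mul, ← Finset.mul_sum, hsd]
            ring
          simp only [this]
          rw [Finset.sum_add_distrib, ← Finset.sum_mul, hsu, one_mul, ← Finset.mul_sum]
      _ ≤ _ := Finset.sum_le_sum fun i _ => Finset.sum_le_sum fun j _ =>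
          mul_le_mul_of_nonneg_left (F_comb_lt hx (hu i) k h1) (mul_nonneg (hpu i) (hpd j))
  · have hp0 : 0 < min (s []) 1 := lt_min (hx.1.trans h2) one_pos
    set p := min (s []) 1 with hp
    set s'' : List Ordering → ℝ := fun l => s (Ordering.gt :: l) / p with hs''
    calc p * (1 + b) ≤ p * (1 + ∑ j, pd j * F s'' (Hd j) (k - 1) N) := by
          apply mul_le_mul_of_nonneg_left _ hp0.le
          linarith [hb s'']
      _ = ∑ i, ∑ j, (pu i * pd j) * (p * (1 + F s'' (Hd j) (k - 1) N)) := by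
          have : ∀ i, ∑ j, (pu i * pd j) * (p * (1 + F s'' (Hd j) (k - 1) N)) =
              pu i * (p * (1 + ∑ j, pd j * F s'' (Hd j) (k - 1) N)) := by
            intro i
            rw [mul_add, mul_one, Finset.mul_sum, mul_add, Finset.mul_sum]
            have e1 : pu i * p = ∑ j, (pu i * pd j) * p := by
              rw [← Finset.sum_mul, ← Finset.mul_sum, hsd, mul_one]
            rw [e1, ← Finset.sum_add_distrib]
            refine Finset.sum_congr rfl fun j _ => ?_
            ring
          simp only [this]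
          rw [← Finset.sum_mul, hsu, one_mul]
      _ ≤ _ := Finset.sum_le_sum fun i _ => Finset.sum_le_sum fun j _ =>
          mul_le_mul_of_nonneg_left (F_comb_gt hx (hd j) k h2) (mul_nonneg (hpu i) (hpd j))
  · have h3 : s [] = x := le_antisymm (not_lt.1 h2) (not_lt.1 h1)
    calc k * x = ∑ i, ∑ j, (pu i * pd j) * (k * x) := by
          have : ∀ i, ∑ j, (pu i * pd j) * (k * x) = pu i * (k * x) := by
            intro i
            rw [← Finset.sum_mul, ← Finset.mul_sum, hsd, mul_one]
          simp only [this]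
          rw [← Finset.sum_mul, hsu, one_mul]
      _ ≤ _ := Finset.sum_le_sum fun i _ => Finset.sum_le_sum fun j _ =>
          mul_le_mul_of_nonneg_left (F_comb_eq k h3) (mul_nonneg (hpu i) (hpd j))

theorem mix_step {N : ℕ} {k wk wu wd vu vd u d : ℝ} (hu : 0 ≤ u) (hd : 0 ≤ d)
    (hud : u + d = 1) (h1 : wk = u * wu) (h2 : wk = u * k + d * (1 + wd)) (hvu : 0 ≤ vu)
    (hvd : 0 ≤ 1 + vd) (hkvd : k ≤ 1 + vd) (hmu : Mix N (k + 1) vu) (hmd : Mix N (k - 1) vd) :
    Mix (N + 1) k (wk - max (u * (wu - vu)) (d * (wd - vd))) := by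
  intro ε hε
  set C := |k| + (1 + vd) + vu with hC
  have hC0 : 0 ≤ C := by positivity
  set δ := min (1 / 4) (ε / (2 * (C + 1))) with hδ
  have hδ0 : 0 < δ := lt_min (by norm_num) (by positivity)
  have hδ1 : δ ≤ 1 / 4 := min_le_left _ _
  have hδC : δ * C ≤ ε / 2 := by
    have h3 : δ ≤ ε / (2 * (C + 1)) := min_le_right _ _
    rw [le_div_iff₀ (by positivity)] at h3
    nlinarith
  obtain ⟨ιu, _, pu, Hu, hu1, hu2, hu3, hu4⟩ := hmu (ε / 2) (half_pos hε)
  obtain ⟨ιd, _, pd, Hd, hd1, hd2, hd3, hd4⟩ := hmd (ε / 2) (half_pos hε)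
  have hxr : 1 - δ ∈ Ioo (0:ℝ) 1 := ⟨by linarith, by linarith⟩
  have hxl : δ ∈ Ioo (0:ℝ) 1 := ⟨hδ0, by linarith⟩
  refine ⟨Bool × (ιu × ιd), inferInstance,
    fun z => (if z.1 = true then u else d) * (pu z.2.1 * pd z.2.2),
    fun z => comb (if z.1 = true then 1 - δ else δ) (Hu z.2.1) (Hd z.2.2), ?_, ?_, ?_, ?_⟩
  · intro z
    refine mul_nonneg ?_ (mul_nonneg (hu1 _) (hd1 _))
    split_ifs
    · exact hu
    · exact hd
  · rw [Fintype.sum_prod_type]
    simp only [Fintype.univ_bool, Finset.mem_singleton, Bool.true_eq_false, not_false_eq_true,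
      Finset.sum_insert, Finset.sum_singleton, if_true, Bool.false_eq_true, if_false]
    rw [← Finset.mul_sum, ← Finset.mul_sum, Fintype.sum_prod_type]
    have : ∑ i, ∑ j, pu i * pd j = 1 := by
      simp only [← Finset.mul_sum, hd2, mul_one]
      exact hu2
    simp only [this]
    linarith
  · intro z
    refine nice_comb ?_ (hu3 _) (hd3 _)
    split_ifs
    · exact hxr
    · exact hxl
  · intro s
    have h3 := exp_ge hu1 hd1 hu2 hd2 hu3 hd3 (k := k) hu4 hd4 hxr s
    have h4 := exp_ge hu1 hd1 hu2 hd2 hu3 hd3 (k := k) hu4 hd4 hxl s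
    have h5 := key_ineq (g := s []) hu hd hud h1 h2 hvu hvd hkvd hδ0 (by linarith)
      (half_pos hε).le
    have h6 := mul_le_mul_of_nonneg_left h3 hu
    have h7 := mul_le_mul_of_nonneg_left h4 hd
    rw [Fintype.sum_prod_type]
    simp only [Fintype.univ_bool, Finset.mem_singleton, Bool.true_eq_false, not_false_eq_true,
      Finset.sum_insert, Finset.sum_singleton, if_true, Bool.false_eq_true, if_false]
    have h8 : ∀ (q x : ℝ), ∑ z : ιu × ιd, q * (pu z.1 * pd z.2) *
        F s (comb x (Hu z.1) (Hd z.2)) k (N + 1) =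
        q * ∑ i, ∑ j, (pu i * pd j) * F s (comb x (Hu i) (Hd j)) k (N + 1) := by
      intro q x
      rw [← Fintype.sum_prod_type (f := fun z : ιu × ιd =>
        (pu z.1 * pd z.2) * F s (comb x (Hu z.1) (Hd z.2)) k (N + 1)), Finset.mul_sum]
      refine Finset.sum_congr rfl fun z _ => ?_
      ring
    rw [h8, h8]
    linarith

end Q93.AL
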