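import Mathlib
import Pool.Agent.Q93.AL.Step

namespace Q93.AL

open Filter Topology Set
open scoped ENNReal

/-- bound for the defect after `N` rounds -/
noncomputable def Dd (v : ℝ) (N : ℕ) (k : ℤ) : ℝ :=
  v * (|(k : ℝ)| + (v + 1)) / (N + |(k : ℝ)| + (v + 1))

/-- outward move -/
theorem ineq1 {v K x : ℝ} {N : ℕ} (hv : 0 ≤ v) (hK : 0 ≤ K)
    (hx1 : x * (K + (v + 1) + 1) ≤ K + (v + 1)) :
    x * (v * (K + 1 + (v + 1)) / (N + (K + 1) + (v + 1))) ≤
      v * (K + (v + 1)) / (((N + 1 : ℕ) : ℝ) + K + (v + 1)) := by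
  push_cast
  rw [mul_div_assoc', div_le_div_iff₀ (by positivity) (by positivity)]
  have e : (N : ℝ) + (K + 1) + (v + 1) = N + 1 + K + (v + 1) := by ring
  rw [e]
  apply mul_le_mul_of_nonneg_right _ (by positivity)
  have := mul_le_mul_of_nonneg_left hx1 hv
  nlinarith

/-- inward move -/
theorem ineq2 {v K y : ℝ} {N : ℕ} (hv : 0 ≤ v) (hK : 1 ≤ K)
    (hy1 : y * (K + (v + 1)) ≤ v + 1) :
    y * (v * (K - 1 + (v + 1)) / (N + (K - 1) + (v + 1))) ≤
      v * (K + (v + 1)) / (((N + 1 : ℕ) : ℝ) + K + (v + 1)) := by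
  push_cast
  have hd1 : 0 < (N : ℝ) + (K - 1) + (v + 1) := by
    have : (0:ℝ) ≤ N := by positivity
    linarith
  have hN : (0:ℝ) ≤ N := by positivity
  rw [mul_div_assoc', div_le_div_iff₀ hd1 (by positivity)]
  set S := v + 1 with hS
  have hS1 : 1 ≤ S := by linarith
  -- y (K-1+S)(N+1+K+S) ≤ (K+S)(N+K-1+S)
  have key : y * (K - 1 + S) * (N + 1 + K + S) ≤ (K + S) * (N + (K - 1) + S) := by
    have hKS : 0 < K + S := by linarith
    have h1 : (K + S) * (y * (K - 1 + S) * (N + 1 + K + S)) ≤
        (K + S) * ((K + S) * (N + (K - 1) + S)) := by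
      have h2 : (K + S) * (y * (K - 1 + S) * (N + 1 + K + S)) =
          (y * (K + S)) * ((K - 1 + S) * (N + 1 + K + S)) := by ring
      have h3 : (y * (K + S)) * ((K - 1 + S) * (N + 1 + K + S)) ≤
          S * ((K - 1 + S) * (N + 1 + K + S)) :=
        mul_le_mul_of_nonneg_right hy1 (mul_nonneg (by linarith) (by linarith))
      have h4 : S * ((K - 1 + S) * (N + 1 + K + S)) ≤
          (K + S) * ((K + S) * (N + (K - 1) + S)) := by
        have h5 : (K + S) * ((K + S) * (N + (K - 1) + S)) -
            S * ((K - 1 + S) * (N + 1 + K + S)) =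
            (S + K * S + K * K) * N +
              (K - 1 + S) * (K * S - S + K * K) := by ring
        have h6 : 0 ≤ (S + K * S + K * K) * N := by positivity
        have h7 : 0 ≤ (K - 1 + S) * (K * S - S + K * K) := by
          apply mul_nonneg (by linarith)
          nlinarith
        linarith
      linarith
    exact le_of_mul_le_mul_left h1 hKS
  calc y * (v * (K - 1 + S)) * (N + 1 + K + S) =
      v * (y * (K - 1 + S) * (N + 1 + K + S)) := by ring
    _ ≤ v * ((K + S) * (N + (K - 1) + S)) := mul_le_mul_of_nonneg_left key hv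
    _ = v * (K + S) * (N + (K - 1) + S) := by ring

variable {lam : ℤ → ℝ} {v : ℝ} {w : ℤ → ℝ}

theorem main_mix (hw : Vals lam v w) (N : ℕ) : ∀ k : ℤ, Mix N (k : ℝ) (w k - Dd v N k) := by
  have hv : 0 ≤ v := by rw [← hw.zero]; exact hw.nonneg 0
  induction N with
  | zero =>
    intro k
    refine (mix_const 0 (k : ℝ)).mono ?_
    have h1 := hw.le k
    have h2 : Dd v 0 k = v := by
      unfold Dd
      have : 0 < |(k : ℝ)| + (v + 1) := by positivity
      push_cast
      rw [zero_add, mul_div_assoc, div_self this.ne', mul_one]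
    rw [h2]
    linarith
  | succ N ih =>
    intro k
    -- continuation values
    set vu := max (max ((k + 1 : ℤ) : ℝ) 0) (w (k + 1) - Dd v N (k + 1)) with hvu
    set vd := max (max ((k - 1 : ℤ) : ℝ) 0) (w (k - 1) - Dd v N (k - 1)) with hvd
    have hmu : Mix N ((k : ℝ) + 1) vu := by
      have e : (k : ℝ) + 1 = ((k + 1 : ℤ) : ℝ) := by push_cast; ring
      rw [e]
      rcases max_choice (max ((k + 1 : ℤ) : ℝ) 0) (w (k + 1) - Dd v N (k + 1)) with h | h
      · rw [hvu, h]; exact mix_const N _
      · rw [hvu, h]; exact ih (k + 1)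
    have hmd : Mix N ((k : ℝ) - 1) vd := by
      have e : (k : ℝ) - 1 = ((k - 1 : ℤ) : ℝ) := by push_cast; ring
      rw [e]
      rcases max_choice (max ((k - 1 : ℤ) : ℝ) 0) (w (k - 1) - Dd v N (k - 1)) with h | h
      · rw [hvd, h]; exact mix_const N _
      · rw [hvd, h]; exact ih (k - 1)
    -- parameters
    have hwu := hw.ge' (k + 1)
    have hwd := hw.ge' (k - 1)
    have hwu0 := hw.nonneg (k + 1)
    have hwd0 := hw.nonneg (k - 1)
    have hwu1 := hw.le (k + 1)
    have hwd1 := hw.le (k - 1)
    have hup := hw.up k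
    have hdown := hw.down k
    have hlk := hw.lam_mem k
    set α := w (k + 1) - k with hα
    set β := 1 + w (k - 1) with hβ
    have hα1 : 1 ≤ α := by push_cast at hwu; linarith
    have hβ1 : 1 ≤ β := by linarith
    have hαβ : 0 < α + β := by linarith
    -- `1 - lam k = w(k+1)/(α+β)`
    have hg : (1 - lam k) * (α + β) = w (k + 1) := by
      have : k * (1 - lam k) + lam k * w (k + 1) = (1 - lam k) * β := by
        rw [← hup, hdown]
      rw [hα]
      have e2 : lam k = 1 - (1 - lam k) := by ring
      rw [e2] at this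
      nlinarith
    set u := β / (α + β) with hu
    set d := α / (α + β) with hd
    have hu0 : 0 ≤ u := by positivity
    have hd0 : 0 ≤ d := by positivity
    have hud : u + d = 1 := by
      rw [hu, hd, ← add_div, add_comm β α, div_self hαβ.ne']
    have h1 : w k = u * w (k + 1) := by
      rw [hdown, ← hg, hu]
      field_simp
    have h2 : w k = u * k + d * (1 + w (k - 1)) := by
      rw [h1]
      have e1 : w (k + 1) = α + k := by rw [hα]; ring
      rw [e1, hu, hd, ← hβ]
      field_simp
      ring
    have hvu0 : 0 ≤ vu := (le_max_right _ _).trans (le_max_left _ _)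
    have hvd0 : 0 ≤ vd := (le_max_right _ _).trans (le_max_left _ _)
    have hkvd : (k : ℝ) ≤ 1 + vd := by
      have h3 : ((k - 1 : ℤ) : ℝ) ≤ vd := (le_max_left _ _).trans (le_max_left _ _)
      push_cast at h3
      linarith
    have hstep := mix_step (k := (k : ℝ)) hu0 hd0 hud h1 h2 hvu0 (by linarith) hkvd hmu hmd
    refine hstep.mono ?_
    -- it remains to bound the defect
    have hDu : w (k + 1) - vu ≤ Dd v N (k + 1) := by
      have : w (k + 1) - Dd v N (k + 1) ≤ vu := le_max_right _ _
      linarith
    have hDd : w (k - 1) - vd ≤ Dd v N (k - 1) := by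
      have : w (k - 1) - Dd v N (k - 1) ≤ vd := le_max_right _ _
      linarith
    have hbu : u * Dd v N (k + 1) ≤ Dd v (N + 1) k := by
      unfold Dd
      rcases le_or_gt 0 k with hk | hk
      · have hk' : (0 : ℝ) ≤ k := by exact_mod_cast hk
        have e1 : |((k + 1 : ℤ) : ℝ)| = (k : ℝ) + 1 := by
          push_cast
          exact abs_of_nonneg (by linarith)
        rw [e1, abs_of_nonneg hk']
        refine ineq1 hv hk' ?_
        rw [hu, div_mul_eq_mul_div, div_le_iff₀ hαβ]
        -- β ≤ v + k + [k=0], α ≥ 1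
        have h3 : β ≤ (k : ℝ) + (v + 1) := by
          rcases eq_or_lt_of_le hk with h0 | h0
          · have h4 : (k : ℝ) = 0 := by exact_mod_cast h0.symm
            push_cast at hwd1
            rw [max_eq_right (by linarith)] at hwd1
            rw [hβ]
            linarith
          · have h4 : (1 : ℝ) ≤ k := by exact_mod_cast h0
            push_cast at hwd1
            rw [max_eq_left (by linarith)] at hwd1
            rw [hβ]
            linarith
        nlinarith
      · have hk' : (k : ℝ) ≤ -1 := by exact_mod_cast (by omega : k ≤ -1)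
        have e1 : |((k + 1 : ℤ) : ℝ)| = -(k : ℝ) - 1 := by
          push_cast
          rw [abs_of_nonpos (by linarith)]
          ring
        rw [e1, abs_of_neg (by linarith)]
        refine ineq2 hv (by linarith) ?_
        rw [hu, div_mul_eq_mul_div, div_le_iff₀ hαβ]
        -- β ≤ v + 1, α ≥ -k
        have h3 : β ≤ v + 1 := by
          push_cast at hwd1
          rw [max_eq_right (by linarith)] at hwd1
          rw [hβ]
          linarith
        have h4 : -(k : ℝ) ≤ α := by
          rw [hα]
          linarith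
        nlinarith
    have hbd : d * Dd v N (k - 1) ≤ Dd v (N + 1) k := by
      unfold Dd
      rcases le_or_gt k 0 with hk | hk
      · have hk' : (k : ℝ) ≤ 0 := by exact_mod_cast hk
        have e1 : |((k - 1 : ℤ) : ℝ)| = -(k : ℝ) + 1 := by
          push_cast
          rw [abs_of_nonpos (by linarith)]
          ring
        rw [e1, abs_of_nonpos hk']
        refine ineq1 hv (by linarith) ?_
        rw [hd, div_mul_eq_mul_div, div_le_iff₀ hαβ]
        have h3 : α ≤ -(k : ℝ) + (v + 1) := by
          rcases eq_or_lt_of_le hk with h0 | h0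
          · have h4 : (k : ℝ) = 0 := by exact_mod_cast h0
            push_cast at hwu1
            rw [max_eq_left (by linarith)] at hwu1
            rw [hα]
            linarith
          · have h4 : (k : ℝ) ≤ -1 := by exact_mod_cast (by omega : k ≤ -1)
            push_cast at hwu1
            rw [max_eq_right (by linarith)] at hwu1
            rw [hα]
            linarith
        nlinarith
      · have hk' : (1 : ℝ) ≤ k := by exact_mod_cast hk
        have e1 : |((k - 1 : ℤ) : ℝ)| = (k : ℝ) - 1 := by
          push_cast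
          exact abs_of_nonneg (by linarith)
        rw [e1, abs_of_pos (by linarith)]
        refine ineq2 hv hk' ?_
        rw [hd, div_mul_eq_mul_div, div_le_iff₀ hαβ]
        have h3 : α ≤ v + 1 := by
          push_cast at hwu1
          rw [max_eq_left (by linarith)] at hwu1
          rw [hα]
          linarith
        have h4 : (k : ℝ) ≤ β := by
          push_cast at hwd
          rw [hβ]
          linarith
        nlinarith
    have hmax : max (u * (w (k + 1) - vu)) (d * (w (k - 1) - vd)) ≤ Dd v (N + 1) k :=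
      max_le ((mul_le_mul_of_nonneg_left hDu hu0).trans hbu)
        ((mul_le_mul_of_nonneg_left hDd hd0).trans hbd)
    linarith

/-- the value `v` is guaranteed, up to `ε`, by finite mixed hider strategies -/
theorem main_finite (hw : Vals lam v w) {ε : ℝ} (hε : 0 < ε) :
    ∃ (N : ℕ) (ι : Type) (_ : Fintype ι) (p : ι → ℝ) (H : ι → List ℝ → ℝ),
    (∀ i, 0 ≤ p i) ∧ ∑ i, p i = 1 ∧ (∀ i, Nice N (H i)) ∧
      ∀ s : List Ordering → ℝ, v - ε ≤ ∑ i, p i * F s (H i) 0 N := by
  have hv : 0 ≤ v := by rw [← hw.zero]; exact hw.nonneg 0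
  obtain ⟨N, hN⟩ := exists_nat_gt (2 * v * (v + 1) / ε)
  have hD : Dd v N 0 ≤ ε / 2 := by
    unfold Dd
    rw [div_lt_iff₀ hε] at hN
    push_cast
    rw [abs_zero, zero_add, add_zero, div_le_iff₀ (by positivity)]
    nlinarith
  obtain ⟨ι, hι, p, H, h1, h2, h3, h4⟩ := main_mix hw N 0 (ε / 2) (half_pos hε)
  refine ⟨N, ι, hι, p, H, h1, h2, h3, fun s => ?_⟩
  have := h4 s
  rw [hw.zero] at this
  push_cast at this
  linarith

end Q93.AL
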