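import Mathlib
import Pool.Agent.Q93.AL.Iter

namespace Q93.AL

open Filter Topology Set MeasureTheory
open scoped ENNReal

theorem play_take (s : List Ordering → ℝ) (H : List ℝ → ℝ) {N n : ℕ} (h : N ≤ n) :
    (play s H n).2.take N = (play s H N).2 := by
  induction n with
  | zero =>
    obtain rfl : N = 0 := by omega
    rfl
  | succ n ih =>
    rcases Nat.lt_or_ge n N with h1 | h1
    · obtain rfl : N = n + 1 := by omega
      rw [List.take_of_length_le (by rw [length_play_two])]
    · rw [play]
      simp only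
      rw [List.take_append_of_le_length (by rw [length_play_two]; exact h1)]
      exact ih h1

theorem Nice.secret_eq {N : ℕ} {H : List ℝ → ℝ} (h : Nice N H) (s : List Ordering → ℝ)
    {n : ℕ} (hn : N ≤ n) : secret s H n = secret s H N := by
  unfold secret
  rw [h.take, play_take s H hn]

theorem Nice.payoff_eq {N : ℕ} {H : List ℝ → ℝ} (h : Nice N H) (s : List Ordering → ℝ) :
    payoff s H = ∑' n, ENNReal.ofReal |guess s H n - secret s H N| := by
  apply Q93.AL.payoff_eq
  exact tendsto_atTop_of_eventually_const (i₀ := N) fun n hn => h.secret_eq s hn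

theorem Nice.le_payoff {N : ℕ} {H : List ℝ → ℝ} (h : Nice N H) (s : List Ordering → ℝ) :
    ENNReal.ofReal (F s H 0 N) ≤ payoff s H := by
  rw [h.payoff_eq]
  unfold F
  rw [zero_mul, zero_add, ENNReal.ofReal_sum_of_nonneg (fun _ _ => abs_nonneg _)]
  exact ENNReal.sum_le_tsum _

variable {lam : ℤ → ℝ} {v : ℝ}

theorem finite_mix (h : IsAlpern lam v) {ε : ℝ} (hε : 0 < ε) :
    ∃ (N : ℕ) (ι : Type) (_ : Fintype ι) (p : ι → ℝ) (H : ι → List ℝ → ℝ),
    (∀ i, 0 ≤ p i) ∧ ∑ i, p i = 1 ∧ (∀ i, Nice N (H i)) ∧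
      ∀ s : List Ordering → ℝ,
        ENNReal.ofReal (v - ε) ≤ ∑ i, ENNReal.ofReal (p i) * payoff s (H i) := by
  obtain ⟨w, hw⟩ := exists_vals h
  obtain ⟨N, ι, hι, p, H, h1, h2, h3, h4⟩ := main_finite hw hε
  refine ⟨N, ι, hι, p, H, h1, h2, h3, fun s => ?_⟩
  have hF : ∀ i, 0 ≤ F s (H i) 0 N := by
    intro i
    unfold F
    rw [zero_mul, zero_add]
    exact Finset.sum_nonneg fun _ _ => abs_nonneg _
  calc ENNReal.ofReal (v - ε) ≤ ENNReal.ofReal (∑ i, p i * F s (H i) 0 N) :=
        ENNReal.ofReal_le_ofReal (h4 s)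
    _ = ∑ i, ENNReal.ofReal (p i) * ENNReal.ofReal (F s (H i) 0 N) := by
        rw [ENNReal.ofReal_sum_of_nonneg (fun i _ => mul_nonneg (h1 i) (hF i))]
        refine Finset.sum_congr rfl fun i _ => ?_
        rw [ENNReal.ofReal_mul (h1 i)]
    _ ≤ _ := Finset.sum_le_sum fun i _ => mul_le_mul_right ((h3 i).le_payoff s) _

/-- measurability of the play in the random searcher strategy -/
theorem meas_play {Ω : Type*} [MeasurableSpace Ω] {s : Ω → List Ordering → ℝ}
    (hs : ∀ l, Measurable fun ω => s ω l) {H : List ℝ → ℝ}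
    (hH : ∀ n, Measurable (fun v : Fin n → ℝ => H (List.ofFn v))) (n : ℕ) :
    (Measurable[_, ⊤] fun ω => (play (s ω) H n).1) ∧
      (∀ i < n, Measurable fun ω => guess (s ω) H i) := by
  let _ : MeasurableSpace (List Ordering) := ⊤
  let _ : MeasurableSpace Ordering := ⊤
  have : MeasurableSingletonClass (List Ordering) := ⟨fun _ => trivial⟩
  have : MeasurableSingletonClass Ordering := ⟨fun _ => trivial⟩
  induction n with
  | zero => exact ⟨measurable_const, fun i hi => by omega⟩
  | succ n ih =>
    obtain ⟨ih1, ih2⟩ := ih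
    have hguess : Measurable fun ω => guess (s ω) H n := by
      have h1 : Measurable (fun q : List Ordering × Ω => s q.2 q.1) :=
        measurable_from_prod_countable_right fun l => hs l
      exact h1.comp (ih1.prodMk measurable_id)
    have hsec : Measurable fun ω => secret (s ω) H n := by
      have h2 : (fun ω => secret (s ω) H n) =
          (fun v : Fin n → ℝ => H (List.ofFn v)) ∘ fun ω => fun i : Fin n => guess (s ω) H i := by
        funext ω
        unfold secret
        rw [play_two_eq]
        rfl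
      rw [h2]
      exact (hH n).comp (measurable_pi_lambda _ fun i => ih2 i i.2)
    have hcmp : Measurable fun ω => cmp (guess (s ω) H n) (secret (s ω) H n) := by
      have h3 : (fun ω => cmp (guess (s ω) H n) (secret (s ω) H n)) = fun ω =>
          if guess (s ω) H n < secret (s ω) H n then Ordering.lt
          else if secret (s ω) H n < guess (s ω) H n then Ordering.gt else Ordering.eq := by
        funext ω
        rfl
      rw [h3]
      exact Measurable.ite (measurableSet_lt hguess hsec) measurable_const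
        (Measurable.ite (measurableSet_lt hsec hguess) measurable_const measurable_const)
    refine ⟨?_, fun i hi => ?_⟩
    · have h4 : Measurable (fun q : List Ordering × Ordering => q.1 ++ [q.2]) :=
        measurable_from_prod_countable_right fun _ => measurable_from_top
      exact h4.comp (ih1.prodMk hcmp)
    · rcases Nat.lt_or_ge i n with h5 | h5
      · exact ih2 i h5
      · obtain rfl : i = n := by omega
        exact hguess

theorem Nice.meas_payoff {Ω : Type*} [MeasurableSpace Ω] {s : Ω → List Ordering → ℝ}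
    (hs : ∀ l, Measurable fun ω => s ω l) {N : ℕ} {H : List ℝ → ℝ} (hH : Nice N H) :
    Measurable fun ω => payoff (s ω) H := by
  have h1 : (fun ω => payoff (s ω) H) = fun ω =>
      ∑' n, ENNReal.ofReal |guess (s ω) H n - secret (s ω) H N| := by
    funext ω
    exact hH.payoff_eq _
  rw [h1]
  have hg : ∀ n, Measurable fun ω => guess (s ω) H n := fun n =>
    (meas_play hs hH.meas (n + 1)).2 n (Nat.lt_succ_self n)
  have hsec : Measurable fun ω => secret (s ω) H N := by
    have h2 : (fun ω => secret (s ω) H N) =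
        (fun v : Fin N → ℝ => H (List.ofFn v)) ∘ fun ω => fun i : Fin N => guess (s ω) H i := by
      funext ω
      unfold secret
      rw [play_two_eq]
      rfl
    rw [h2]
    exact (hH.meas N).comp (measurable_pi_lambda _ fun i => hg i)
  exact Measurable.tsum fun n => ((hg n).sub hsec).abs.ennreal_ofReal

theorem lower {Ω : Type*} [MeasurableSpace Ω] (μ : Measure Ω) [IsProbabilityMeasure μ]
    {s : Ω → List Ordering → ℝ} (hs : ∀ l, Measurable fun ω => s ω l) (h : IsAlpern lam v) :
    ENNReal.ofReal v ≤ ⨆ (H : List ℝ → ℝ) (_ : BorelHider H), ∫⁻ ω, payoff (s ω) H ∂μ := by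
  have key : ∀ ε : ℝ, 0 < ε → ENNReal.ofReal (v - ε) ≤
      ⨆ (H : List ℝ → ℝ) (_ : BorelHider H), ∫⁻ ω, payoff (s ω) H ∂μ := by
    intro ε hε
    obtain ⟨N, ι, hι, p, H, h1, h2, h3, h4⟩ := finite_mix h hε
    have hne : Nonempty ι := by
      by_contra hcon
      rw [not_nonempty_iff] at hcon
      rw [Finset.univ_eq_empty, Finset.sum_empty] at h2
      norm_num at h2
    obtain ⟨i₀, _, hi₀⟩ := Finset.exists_max_image Finset.univ
      (fun i => ∫⁻ ω, payoff (s ω) (H i) ∂μ) Finset.univ_nonempty
    refine le_trans ?_ (le_iSup₂ (f := fun (H : List ℝ → ℝ) (_ : BorelHider H) =>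
      ∫⁻ ω, payoff (s ω) H ∂μ) (H i₀) (h3 i₀).hider)
    calc ENNReal.ofReal (v - ε) = ∫⁻ _, ENNReal.ofReal (v - ε) ∂μ := by simp
      _ ≤ ∫⁻ ω, ∑ i, ENNReal.ofReal (p i) * payoff (s ω) (H i) ∂μ :=
          lintegral_mono fun ω => h4 (s ω)
      _ = ∑ i, ENNReal.ofReal (p i) * ∫⁻ ω, payoff (s ω) (H i) ∂μ := by
          rw [lintegral_finsetSum _ (fun i _ => ((h3 i).meas_payoff hs).const_mul _)]
          refine Finset.sum_congr rfl fun i _ => ?_
          rw [lintegral_const_mul _ ((h3 i).meas_payoff hs)]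
      _ ≤ ∑ i, ENNReal.ofReal (p i) * ∫⁻ ω, payoff (s ω) (H i₀) ∂μ :=
          Finset.sum_le_sum fun i _ => mul_le_mul_right (hi₀ i (Finset.mem_univ i)) _
      _ = ∫⁻ ω, payoff (s ω) (H i₀) ∂μ := by
          rw [← Finset.sum_mul, ← ENNReal.ofReal_sum_of_nonneg (fun i _ => h1 i), h2,
            ENNReal.ofReal_one, one_mul]
  refine ENNReal.le_of_forall_pos_le_add fun ε hε _ => ?_
  have h1 := key ε (by exact_mod_cast hε)
  calc ENNReal.ofReal v = ENNReal.ofReal ((v - ε) + ε) := by congr 1; ring
    _ ≤ ENNReal.ofReal (v - ε) + ENNReal.ofReal ε := ENNReal.ofReal_add_le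
    _ ≤ _ := by
        rw [ENNReal.ofReal_coe_nnreal]
        gcongr

end Q93.AL
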