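import Mathlib
import Pool.Agent.Q93.AL.Alp

namespace Q93.AL

open Filter Topology Set
open scoped ENNReal

variable {lam : ℤ → ℝ} {v : ℝ} {w : ℤ → ℝ}

/-- `x` is (weakly) consistent with the answer given to `g` when the secret was `h` -/
def Cons (g h x : ℝ) : Prop := (g < h → g ≤ x) ∧ (h < g → x ≤ g) ∧ (g = h → x = g)

theorem guess_const (g : ℝ) (H : List ℝ → ℝ) (n : ℕ) : guess (fun _ => g) H n = g := rfl

theorem upper_aux (hw : Vals lam v w) (n : ℕ) : ∀ (k : ℤ) (a b : ℝ) (H : List ℝ → ℝ) (x : ℝ),
    a < b → x ∈ Icc a b →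
    (∀ i < n, Cons (guess (fun l => alpern lam l k a b) H i)
      (secret (fun l => alpern lam l k a b) H i) x) →
    k * x + ∑ i ∈ Finset.range n, |guess (fun l => alpern lam l k a b) H i - x| ≤
      k * a + (b - a) * w k := by
  induction n with
  | zero =>
    intro k a b H x hab hx _
    simp only [Finset.range_zero, Finset.sum_empty, add_zero]
    have h1 := hw.ge' k
    have h2 := hw.nonneg k
    rcases le_total 0 (k : ℝ) with h3 | h3
    · nlinarith [mul_le_mul_of_nonneg_left hx.2 h3,
        mul_le_mul_of_nonneg_left h1 (by linarith : 0 ≤ b - a)]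
    · nlinarith [mul_le_mul_of_nonpos_left hx.1 h3, mul_nonneg (by linarith : 0 ≤ b - a) h2]
  | succ n ih =>
    intro k a b H x hab hx hcons
    have hlk := hw.lam_mem k
    set g := lam k * a + (1 - lam k) * b with hg
    have hag : a < g := by rw [hg]; nlinarith [hlk.1, hlk.2]
    have hgb : g < b := by rw [hg]; nlinarith [hlk.1, hlk.2]
    have hup := hw.up k
    have hdown := hw.down k
    rw [Finset.sum_range_succ']
    have hg0 : guess (fun l => alpern lam l k a b) H 0 = g := rfl
    have hs0 : secret (fun l => alpern lam l k a b) H 0 = H [] := rfl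
    have h0 := hcons 0 (Nat.succ_pos n)
    rw [hg0, hs0] at h0
    rw [hg0]
    have hroot : alpern lam [] k a b = g := rfl
    rcases lt_trichotomy g (H []) with hc | hc | hc
    · -- answer lt
      have hcmp : cmp g (H []) = Ordering.lt := (cmp_eq_lt_iff _ _).2 hc
      have hgx := h0.1 hc
      have hG : ∀ i, guess (fun l => alpern lam l k a b) H (i + 1) =
          guess (fun l => alpern lam l (k + 1) g b) (fun l => H (g :: l)) i := by
        intro i
        rw [guess_succ, hroot, hcmp]
        rfl
      have hS : ∀ i, secret (fun l => alpern lam l k a b) H (i + 1) =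
          secret (fun l => alpern lam l (k + 1) g b) (fun l => H (g :: l)) i := by
        intro i
        rw [secret_succ, hroot, hcmp]
        rfl
      have h5 := ih (k + 1) g b (fun l => H (g :: l)) x hgb ⟨hgx, hx.2⟩ (fun i hi => by
        rw [← hG, ← hS]
        exact hcons (i + 1) (by omega))
      simp only [hG]
      rw [abs_sub_comm g x, abs_of_nonneg (by linarith : 0 ≤ x - g)]
      push_cast at h5
      have e1 : (k : ℝ) * g + (b - g) * w (k + 1) = k * a + (b - a) * w k := by
        rw [hup, hg]; ring
      linarith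
    · -- answer eq
      have hcmp : cmp g (H []) = Ordering.eq := (cmp_eq_eq_iff _ _).2 hc
      have hgx := h0.2.2 hc
      have hG : ∀ i, guess (fun l => alpern lam l k a b) H (i + 1) = g := by
        intro i
        rw [guess_succ, hroot, hcmp]
        rfl
      simp only [hG]
      rw [hgx]
      simp only [sub_self, abs_zero, Finset.sum_const_zero, add_zero]
      have h1 := hw.ge' k
      have h2 := hw.nonneg k
      rcases le_total 0 (k : ℝ) with h3 | h3
      · nlinarith [mul_le_mul_of_nonneg_left hgb.le h3,
          mul_le_mul_of_nonneg_left h1 (by linarith : 0 ≤ b - a)]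
      · nlinarith [mul_le_mul_of_nonpos_left hag.le h3, mul_nonneg (by linarith : 0 ≤ b - a) h2]
    · -- answer gt
      have hcmp : cmp g (H []) = Ordering.gt := (cmp_eq_gt_iff _ _).2 hc
      have hgx := h0.2.1 hc
      have hG : ∀ i, guess (fun l => alpern lam l k a b) H (i + 1) =
          guess (fun l => alpern lam l (k - 1) a g) (fun l => H (g :: l)) i := by
        intro i
        rw [guess_succ, hroot, hcmp]
        rfl
      have hS : ∀ i, secret (fun l => alpern lam l k a b) H (i + 1) =
          secret (fun l => alpern lam l (k - 1) a g) (fun l => H (g :: l)) i := by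
        intro i
        rw [secret_succ, hroot, hcmp]
        rfl
      have h5 := ih (k - 1) a g (fun l => H (g :: l)) x hag ⟨hx.1, hgx⟩ (fun i hi => by
        rw [← hG, ← hS]
        exact hcons (i + 1) (by omega))
      simp only [hG]
      rw [abs_of_nonneg (by linarith : 0 ≤ g - x)]
      push_cast at h5
      have e1 : g + ((k : ℝ) - 1) * a + (g - a) * w (k - 1) = k * a + (b - a) * w k := by
        rw [hdown, hg]; ring
      linarith

theorem play_prefix (s : List Ordering → ℝ) (H : List ℝ → ℝ) {i n : ℕ} (hin : i < n) :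
    ∃ r, (play s H n).2 = (play s H i).2 ++ guess s H i :: r := by
  induction n with
  | zero => omega
  | succ n ih =>
    rcases Nat.lt_or_ge i n with h | h
    · obtain ⟨r, hr⟩ := ih h
      refine ⟨r ++ [guess s H n], ?_⟩
      rw [play]
      simp only
      rw [hr]
      simp [guess]
    · obtain rfl : i = n := by omega
      exact ⟨[], by rw [play]; rfl⟩

/-- Alpern's strategy guarantees `v` against the mobile hider. -/
theorem upper (h : IsAlpern lam v) {H : List ℝ → ℝ} (hH : Hider H) :
    payoff (strat lam) H ≤ ENNReal.ofReal v := by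
  obtain ⟨w, hw⟩ := exists_vals h
  set s := strat lam with hs
  have hguess : ∀ n, guess s H n ∈ Icc (0:ℝ) 1 := fun n => by
    have := alpern_mem h.2.1 (play s H n).1 0 0 1 zero_lt_one
    exact ⟨this.1.le, this.2.le⟩
  have hmem : ∀ n, ∀ x ∈ (play s H n).2, x ∈ Icc (0:ℝ) 1 := by
    intro n
    induction n with
    | zero => intro x hx; simp [play] at hx
    | succ n ih =>
      intro x hx
      rw [play] at hx
      simp only [List.mem_append, List.mem_singleton] at hx
      rcases hx with hx | hx
      · exact ih x hx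
      · rw [hx]; exact hguess n
  have hsec : ∀ n, secret s H n ∈ Icc (0:ℝ) 1 := fun n => (hH _ (hmem n)).1
  have hcmp : ∀ i n, i < n → cmp (guess s H i) (secret s H n) =
      cmp (guess s H i) (secret s H i) := by
    intro i n hin
    obtain ⟨r, hr⟩ := play_prefix s H hin
    exact (hH _ (hmem n)).2 _ _ _ hr
  -- bound for consistent points
  have hbound : ∀ x ∈ Icc (0:ℝ) 1, (∀ i, Cons (guess s H i) (secret s H i) x) → ∀ n,
      ∑ i ∈ Finset.range n, |guess s H i - x| ≤ v := by
    intro x hx hc n
    have h6 : ((0 : ℤ) : ℝ) * x + ∑ i ∈ Finset.range n, |guess s H i - x| ≤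
        ((0 : ℤ) : ℝ) * 0 + (1 - 0) * w 0 :=
      upper_aux hw n 0 0 1 H x zero_lt_one hx (fun i _ => hc i)
    rw [hw.zero] at h6
    push_cast at h6
    linarith
  have hclus : ∀ x, MapClusterPt x atTop (secret s H) →
      ∀ i, Cons (guess s H i) (secret s H i) x := by
    intro x hx i
    have hx' := mapClusterPt_iff_frequently.1 hx
    have haux : ∀ C : Set ℝ, IsClosed C → (∀ n, i < n → secret s H n ∈ C) → x ∈ C := by
      intro C hC hn
      by_contra hcon
      have h1 := hx' Cᶜ (hC.isOpen_compl.mem_nhds hcon)
      obtain ⟨n, hn1, hn2⟩ := (frequently_atTop.1 h1) (i + 1)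
      exact hn2 (hn n (by omega))
    refine ⟨fun hlt => ?_, fun hlt => ?_, fun heq => ?_⟩
    · refine haux (Ici (guess s H i)) isClosed_Ici fun n hn => ?_
      have h1 := hcmp i n hn
      rw [(cmp_eq_lt_iff _ _).2 hlt, cmp_eq_lt_iff] at h1
      exact h1.le
    · refine haux (Iic (guess s H i)) isClosed_Iic fun n hn => ?_
      have h1 := hcmp i n hn
      rw [(cmp_eq_gt_iff _ _).2 hlt, cmp_eq_gt_iff] at h1
      exact h1.le
    · refine haux {guess s H i} isClosed_singleton fun n hn => ?_
      have h1 := hcmp i n hn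
      rw [(cmp_eq_eq_iff _ _).2 heq, cmp_eq_eq_iff] at h1
      exact h1.symm
  obtain ⟨x, hx, hxc⟩ : ∃ x ∈ Icc (0:ℝ) 1, MapClusterPt x atTop (secret s H) :=
    isCompact_Icc.exists_mapClusterPt (by
      rw [le_principal_iff, mem_map]
      exact Eventually.of_forall hsec)
  have hlim : Tendsto (secret s H) atTop (𝓝 x) := by
    refine isCompact_Icc.tendsto_nhds_of_unique_mapClusterPt (Eventually.of_forall hsec) ?_
    intro y hy hyc
    have h1 := hbound x hx (hclus x hxc)
    have h2 := hbound y hy (hclus y hyc)
    by_contra hne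
    have hpos : 0 < |y - x| := abs_pos.2 (sub_ne_zero.2 hne)
    obtain ⟨n, hn⟩ := exists_nat_gt (2 * v / |y - x|)
    rw [div_lt_iff₀ hpos] at hn
    have h3 : (n : ℝ) * |y - x| ≤ ∑ i ∈ Finset.range n, (|guess s H i - x| + |guess s H i - y|) := by
      have : (n : ℝ) * |y - x| = ∑ _i ∈ Finset.range n, |y - x| := by
        rw [Finset.sum_const, Finset.card_range, nsmul_eq_mul]
      rw [this]
      refine Finset.sum_le_sum fun i _ => ?_
      have := abs_sub_le y (guess s H i) x
      rw [abs_sub_comm y (guess s H i)] at this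
      linarith
    rw [Finset.sum_add_distrib] at h3
    linarith [h1 n, h2 n]
  rw [payoff_eq hlim]
  refine ENNReal.tsum_le_of_sum_range_le fun n => ?_
  rw [← ENNReal.ofReal_sum_of_nonneg (fun i _ => abs_nonneg _)]
  exact ENNReal.ofReal_le_ofReal (hbound x hx (hclus x hxc) n)

end Q93.AL
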